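import Pool.Agent.H43.LR.Block
import Pool.Agent.H43.HL.Cor

/-!
# Long ranges of m (project H43/LR): definitions of the assembly, L2 norms, additivity

Plan. `X` large, `X^(1/3)/2 <= b`, `b + l <= X^θ`, `θ (2+κ) < 1`, `Pri κ` (primes in residue classes in almost
all intervals of length `N^κ`). For the block `(b, b+l]`, `b/4 <= l <= b`, put `N = 8 b^3`, `J = N^κ`:
* `Dd b l J W` (primes minus their local averages) is small in L2 over `k <= X`: the block theorem
  `final_avg_b` for short blocks, glued by `add1` (DPART);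
* the local averages are as predicted in L2, by `Pri κ` and the fact that each `n <= 2N` is at most `2X/b^2`
  times of the form `m^3+k` (GP, GPART);
* the predicted local averages sum up to `S_y(k) * sum of wt` (CPART).
PIECE adds the three, `add2` glues the pieces, FIRST treats `m <= X^(1/3)/2`, LONG is the mean square theorem,
REL the relative form.
-/

namespace Pool.Agent.H43.LR

open Finset

/-- primes of residue classes in almost all intervals of length `X^κ` (the conclusion of `SI.pri`) -/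
def Pri (κ : ℝ) : Prop := ∀ W : ℕ, 1 ≤ W → ∀ η : ℝ, 0 < η → ∃ X0 : ℕ, 2 ≤ X0 ∧ ∀ X : ℕ, X0 ≤ X →
    ∑ n ∈ Icc 1 (2 * X), ((((range ⌊(X : ℝ) ^ κ⌋₊).filter (fun j => (n + j * W).Prime)).card : ℝ) -
        (if n.Coprime W then (⌊(X : ℝ) ^ κ⌋₊ : ℝ) * W / (W.totient * Real.log X) else 0)) ^ 2 ≤
      η * X * (⌊(X : ℝ) ^ κ⌋₊ / Real.log X) ^ 2

/-- the L2 norm over `k ∈ [1,X]` -/
noncomputable def nrm (X : ℕ) (f : ℕ → ℝ) : ℝ := Real.sqrt (∑ k ∈ Icc 1 X, f k ^ 2)

/-- the number of pairs `(m,j)`, `1 <= m <= L`, `j < J`, with `(b+m)^3+k+jW` prime -/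
def pb (b L J W k : ℕ) : ℕ :=
  ((Icc 1 L ×ˢ range J).filter (fun p => ((b + p.1) ^ 3 + k + p.2 * W).Prime)).card

/-- primes minus the local average -/
noncomputable def Dd (b L J W k : ℕ) : ℝ := (cb b L k : ℝ) - (pb b L J W k : ℝ) / J

/-- the weight of `m` -/
noncomputable def wt (X m : ℕ) : ℝ := 1 / Real.log ((X : ℝ) + (m : ℝ) ^ 3)

/-- the error function of the block `(b, b+l]` -/
noncomputable def F (y X b l k : ℕ) : ℝ :=
  (cb b l k : ℝ) - HL.S y k * ∑ m ∈ Icc 1 l, wt X (b + m)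

/-- the local count as predicted -/
noncomputable def cc (W J : ℕ) (N : ℝ) (n : ℕ) : ℝ :=
  if n.Coprime W then (J : ℝ) * W / (W.totient * Real.log N) else 0

/-- the actual local count -/
def pc (J W n : ℕ) : ℕ := ((range J).filter (fun j => (n + j * W).Prime)).card

theorem nrm_nonneg (X : ℕ) (f : ℕ → ℝ) : 0 ≤ nrm X f := Real.sqrt_nonneg _

theorem nrm_sq (X : ℕ) (f : ℕ → ℝ) : nrm X f ^ 2 = ∑ k ∈ Icc 1 X, f k ^ 2 :=
  Real.sq_sqrt (sum_nonneg fun _ _ => sq_nonneg _)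

theorem nrm_add (X : ℕ) (f g : ℕ → ℝ) : nrm X (fun k => f k + g k) ≤ nrm X f + nrm X g := by
  have h := Real.Lp_add_le (s := Icc 1 X) (f := f) (g := g) (p := 2) (by norm_num)
  unfold nrm
  simp only [Real.sqrt_eq_rpow]
  have e1 : ∀ u : ℕ → ℝ, ∑ i ∈ Icc 1 X, |u i| ^ (2 : ℝ) = ∑ i ∈ Icc 1 X, u i ^ 2 := by
    intro u
    apply sum_congr rfl
    intro i _
    rw [Real.rpow_two, sq_abs]
  rw [e1, e1, e1] at h
  exact h

theorem nrm_congr (X : ℕ) (f g : ℕ → ℝ) (h : ∀ k ∈ Icc 1 X, f k = g k) : nrm X f = nrm X g := by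
  unfold nrm
  congr 1
  exact sum_congr rfl fun k hk => by rw [h k hk]

theorem nrm_le_of_bound (X : ℕ) (f : ℕ → ℝ) (a : ℝ) (ha : 0 ≤ a) (h : ∀ k ∈ Icc 1 X, |f k| ≤ a) :
    nrm X f ≤ Real.sqrt X * a := by
  unfold nrm
  have h1 : ∑ k ∈ Icc 1 X, f k ^ 2 ≤ X * a ^ 2 := by
    calc ∑ k ∈ Icc 1 X, f k ^ 2 ≤ ∑ _k ∈ Icc 1 X, a ^ 2 := by
          apply sum_le_sum
          intro k hk
          rw [← sq_abs]
          exact pow_le_pow_left₀ (abs_nonneg _) (h k hk) 2
      _ = X * a ^ 2 := by simp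
  calc Real.sqrt (∑ k ∈ Icc 1 X, f k ^ 2) ≤ Real.sqrt (X * a ^ 2) := Real.sqrt_le_sqrt h1
    _ = Real.sqrt X * a := by rw [Real.sqrt_mul (Nat.cast_nonneg X), Real.sqrt_sq ha]

theorem nrm_le_of_sq (X : ℕ) (f : ℕ → ℝ) (R : ℝ) (h : ∑ k ∈ Icc 1 X, f k ^ 2 ≤ R) :
    nrm X f ≤ Real.sqrt R := Real.sqrt_le_sqrt h

theorem cb_add (b l l' k : ℕ) : cb b (l + l') k = cb b l k + cb (b + l) l' k := by
  unfold cb
  simp only [card_filter]
  induction l' with
  | zero => simp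
  | succ n ih =>
    have e1 : b + (l + n + 1) = b + l + (n + 1) := by ring
    rw [← Nat.add_assoc, Finset.sum_Icc_succ_top (by omega), ih, Finset.sum_Icc_succ_top (by omega),
      Nat.add_assoc, e1]

theorem pb_eq (b L J W k : ℕ) : (pb b L J W k : ℝ) = ∑ m ∈ Icc 1 L, (pc J W ((b + m) ^ 3 + k) : ℝ) := by
  unfold pb pc
  rw [← Nat.cast_sum]
  congr 1
  rw [Finset.card_filter, Finset.sum_product]
  apply Finset.sum_congr rfl
  intro m _
  rw [Finset.card_filter]

theorem sum_Icc_split (f : ℕ → ℝ) (b l l' : ℕ) : ∑ m ∈ Icc 1 (l + l'), f (b + m) =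
    ∑ m ∈ Icc 1 l, f (b + m) + ∑ m ∈ Icc 1 l', f (b + l + m) := by
  induction l' with
  | zero => simp
  | succ n ih =>
    rw [← Nat.add_assoc, Finset.sum_Icc_succ_top (by omega), ih, Finset.sum_Icc_succ_top (by omega)]
    have : b + (l + n + 1) = b + l + (n + 1) := by ring
    rw [this]
    ring

theorem Dd_add (b l l' J W k : ℕ) : Dd b (l + l') J W k = Dd b l J W k + Dd (b + l) l' J W k := by
  unfold Dd
  rw [pb_eq, pb_eq, pb_eq, cb_add, sum_Icc_split (fun m => (pc J W (m ^ 3 + k) : ℝ))]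
  push_cast
  ring

theorem F_add (y X b l l' k : ℕ) : F y X b (l + l') k = F y X b l k + F y X (b + l) l' k := by
  unfold F
  rw [cb_add, sum_Icc_split (wt X)]
  push_cast
  ring

/-- gluing short blocks -/
theorem add1 (Φ : ℕ → ℕ → ℝ) (htri : ∀ b l l', Φ b (l + l') ≤ Φ b l + Φ (b + l) l')
    (b0 T lam : ℕ) (c : ℝ) (h1 : 1 ≤ lam)
    (hbase : ∀ b l, b0 ≤ b → b + l ≤ T → lam ≤ l → l ≤ 2 * lam → Φ b l ≤ c * l) :
    ∀ l b, b0 ≤ b → b + l ≤ T → lam ≤ l → Φ b l ≤ c * l := by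
  intro l
  induction l using Nat.strong_induction_on with
  | _ l ih =>
    intro b hb hT hl
    rcases le_or_gt l (2 * lam) with h | h
    · exact hbase b l hb hT hl h
    · obtain ⟨r, rfl⟩ : ∃ r, l = lam + r := ⟨l - lam, by omega⟩
      have h2 := hbase b lam hb (by omega) le_rfl (by omega)
      have h3 := ih r (by omega) (b + lam) (by omega) (by omega) (by omega)
      calc Φ b (lam + r) ≤ Φ b lam + Φ (b + lam) r := htri _ _ _
        _ ≤ c * lam + c * r := add_le_add h2 h3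
        _ = c * ((lam + r : ℕ) : ℝ) := by push_cast; ring

/-- gluing the dyadic pieces -/
theorem add2 (Φ : ℕ → ℕ → ℝ) (htri : ∀ b l l', Φ b (l + l') ≤ Φ b l + Φ (b + l) l')
    (b0 T : ℕ) (c : ℝ) (hb0 : 1 ≤ b0)
    (hbase : ∀ b l, b0 ≤ b → b + l ≤ T → b ≤ 4 * l → l ≤ b → Φ b l ≤ c * l) :
    ∀ l b, b0 ≤ b → b + l ≤ T → b ≤ 4 * l → Φ b l ≤ c * l := by
  intro l
  induction l using Nat.strong_induction_on with
  | _ l ih =>
    intro b hb hT hl
    rcases le_or_gt l b with h | h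
    · exact hbase b l hb hT hl h
    · obtain ⟨u, v, huv, hu1, hu2, hv1, hv2⟩ : ∃ u v, l = u + v ∧ b ≤ 4 * u ∧ u < l ∧
          b + u ≤ 4 * v ∧ v < l := by
        rcases le_or_gt (2 * b) l with h2 | h2
        · exact ⟨b, l - b, by omega, by omega, by omega, by omega, by omega⟩
        · exact ⟨l / 2, l - l / 2, by omega, by omega, by omega, by omega, by omega⟩
      subst huv
      have h2 := ih u hu2 b hb (by omega) hu1
      have h3 := ih v hv2 (b + u) (by omega) (by omega) hv1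
      calc Φ b (u + v) ≤ Φ b u + Φ (b + u) v := htri _ _ _
        _ ≤ c * u + c * v := add_le_add h2 h3
        _ = c * ((u + v : ℕ) : ℝ) := by push_cast; ring

end Pool.Agent.H43.LR
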