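import Pool.Agent.H26.LDP.Core

/-!
# Primes m^3+k in long ranges of m (project H43/LR): definitions

The block `b < m <= b+L` replaces `1 <= m <= M` of `H26/LDP`; the primes `m^3+k`, `k <= X`, of the block lie
in the interval `(b^3, b^3+3X]`, which may be much shorter than its height `b^3`.
-/

namespace Pool.Agent.H43.LR

open Finset Pool.Agent.H26.LDP

/-- The cubic Weyl sum over the block `(b, b+L]`. -/
noncomputable def Cb (b L : ℕ) (x : ℝ) : ℂ := ∑ m ∈ Icc 1 L, e (((b + m : ℕ) : ℝ) ^ 3 * x)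

/-- The exponential sum over the primes in `(Y, Y+3X]`. -/
noncomputable def Sb (Y X : ℕ) (x : ℝ) : ℂ :=
  ∑ n ∈ (Ioc Y (Y + 3 * X)).filter Nat.Prime, e ((n : ℝ) * x)

/-- The number of primes in `(Y, Y+3X]`. -/
def Ab (Y X : ℕ) : ℕ := ((Ioc Y (Y + 3 * X)).filter Nat.Prime).card

/-- The number of `b < m <= b+L` with `m^3+k` prime. -/
def cb (b L k : ℕ) : ℕ := ((Icc 1 L).filter (fun m => ((b + m) ^ 3 + k).Prime)).card

theorem norm_Cb_le (b L : ℕ) (x : ℝ) : ‖Cb b L x‖ ≤ L := by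
  unfold Cb
  calc ‖∑ m ∈ Icc 1 L, e (((b + m : ℕ) : ℝ) ^ 3 * x)‖ ≤
        ∑ m ∈ Icc 1 L, ‖e (((b + m : ℕ) : ℝ) ^ 3 * x)‖ := norm_sum_le _ _
    _ = L := by simp [norm_e]

theorem cb_le (b L k : ℕ) : cb b L k ≤ L := by
  unfold cb
  calc _ ≤ (Icc 1 L).card := card_filter_le _ _
    _ = L := by simp

end Pool.Agent.H43.LR
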