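import Pool.Agent.H26.LDP.Mass
import Pool.Agent.H43.LR.Defs

/-!
# The mass of the prime sum of a block on the major arcs (after `H26/LDP/Mass`)
-/

namespace Pool.Agent.H43.LR

open Finset Pool.Agent.H26.LDP

theorem Sb_add_int (Y X : ℕ) (x : ℝ) (n : ℤ) : Sb Y X (x + n) = Sb Y X x := by
  unfold Sb
  apply sum_congr rfl
  intro m _
  have h : (m : ℝ) * (x + n) = (m : ℝ) * x + ((m * n : ℤ) : ℝ) := by
    push_cast
    ring
  rw [h, e_add_int]

theorem sum_Sb_sq (Y X N : ℕ) [NeZero N] (hN : 3 * X < N) :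
    ∑ t : ZMod N, ‖Sb Y X (al N t)‖ ^ 2 = (N : ℝ) * Ab Y X := by
  classical
  have h1 := parseval N Y (3 * X + 1) (by omega)
    (fun k : ℤ => if (k.toNat ∈ (Ioc Y (Y + 3 * X)).filter Nat.Prime) then 1 else 0)
  have h2 : Ico (Y : ℤ) ((Y : ℤ) + ((3 * X + 1 : ℕ) : ℤ)) =
      (Ico Y (Y + 3 * X + 1)).map Nat.castEmbedding := by
    ext k
    rw [mem_Ico, mem_map]
    constructor
    · rintro ⟨h3, h4⟩
      refine ⟨k.toNat, ?_, ?_⟩
      · rw [mem_Ico]
        omega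
      · simp
        omega
    · rintro ⟨m, hm, rfl⟩
      rw [mem_Ico] at hm
      simp
      omega
  have hsub : (Ioc Y (Y + 3 * X)).filter Nat.Prime ⊆ Ico Y (Y + 3 * X + 1) := by
    intro n hn
    rw [mem_filter, mem_Ioc] at hn
    rw [mem_Ico]
    omega
  have h3 : ∀ t : ZMod N, Sb Y X (al N t) = ∑ k ∈ Ico (Y : ℤ) ((Y : ℤ) + ((3 * X + 1 : ℕ) : ℤ)),
      (if (k.toNat ∈ (Ioc Y (Y + 3 * X)).filter Nat.Prime) then (1 : ℂ) else 0) *
        e ((k : ℝ) * al N t) := by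
    intro t
    rw [h2, sum_map]
    unfold Sb
    rw [← sum_subset hsub]
    · apply sum_congr rfl
      intro n hn
      simp only [Nat.castEmbedding_apply, Int.toNat_natCast, Int.cast_natCast]
      rw [if_pos hn, one_mul]
    · intro n _ hn
      simp only [Nat.castEmbedding_apply, Int.toNat_natCast, Int.cast_natCast]
      rw [if_neg hn, zero_mul]
  calc ∑ t : ZMod N, ‖Sb Y X (al N t)‖ ^ 2 = ∑ t : ZMod N,
        ‖∑ k ∈ Ico (Y : ℤ) ((Y : ℤ) + ((3 * X + 1 : ℕ) : ℤ)),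
      (if (k.toNat ∈ (Ioc Y (Y + 3 * X)).filter Nat.Prime) then (1 : ℂ) else 0) *
        e ((k : ℝ) * al N t)‖ ^ 2 := sum_congr rfl fun t _ => by rw [h3 t]
    _ = _ := h1
    _ = (N : ℝ) * Ab Y X := by
        congr 1
        rw [h2, sum_map]
        unfold Ab
        rw [← sum_subset hsub (f := fun n => ‖(if ((Nat.castEmbedding n : ℤ).toNat ∈
          (Ioc Y (Y + 3 * X)).filter Nat.Prime) then (1 : ℂ) else 0)‖ ^ 2)]
        · rw [sum_congr rfl (g := fun _ => (1 : ℝ))]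
          · simp
          · intro n hn
            simp only [Nat.castEmbedding_apply, Int.toNat_natCast]
            rw [if_pos hn]
            simp
        · intro n _ hn
          simp only [Nat.castEmbedding_apply, Int.toNat_natCast]
          rw [if_neg hn]
          simp

theorem mass_b (M X Q R N : ℕ) [NeZero N] (w : ℝ) (hRM : R ≤ M) (hN : ∀ r ∈ rough Q R, r ∣ N)
    (hN3 : 3 * X < N) (hw : 2 * w * ((Q : ℝ) * R) ^ 2 < 1)
    (E : Finset (ZMod N)) (hE : ∀ t ∈ E, Maj Q w (al N t)) :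
    (∑ r ∈ rough Q R, (1 : ℝ) / r) * ∑ t ∈ E, ‖Sb M X (al N t)‖ ^ 2 ≤ (N : ℝ) * Ab M X := by
  classical
  have hlift : ∀ r ∈ rough Q R, ∀ t ∈ E, 1 / (r : ℝ) * ‖Sb M X (al N t)‖ ^ 2 ≤
      ∑ c ∈ (range r).filter (fun c => Nat.Coprime c r),
        ‖Sb M X (al N (t + ((c * (N / r) : ℕ) : ZMod N)))‖ ^ 2 := by
    intro r hr t _
    rw [mem_rough] at hr
    have hr0 : (0 : ℝ) < r := by exact_mod_cast hr.1.1
    have h1 := lift r hr.2.1 ((Ioc M (M + 3 * X)).filter Nat.Prime) (by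
      intro n hn
      rw [mem_filter, mem_Ioc] at hn
      refine (Nat.Prime.coprime_iff_not_dvd hn.2).2 (Nat.not_dvd_of_pos_of_lt hr.1.1 ?_)
      omega) (al N t)
    have h2 : ∀ c, ‖∑ n ∈ (Ioc M (M + 3 * X)).filter Nat.Prime, e ((n : ℝ) * (al N t + (c : ℝ) / r))‖ ^ 2
        = ‖Sb M X (al N t + (c : ℝ) / r)‖ ^ 2 := fun c => rfl
    have h3 : ∀ c : ℕ, ‖Sb M X (al N t + (c : ℝ) / r)‖ ^ 2
        = ‖Sb M X (al N (t + ((c * (N / r) : ℕ) : ZMod N)))‖ ^ 2 := by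
      intro c
      obtain ⟨n, hn⟩ := al_shift N r c (hN r (mem_rough.2 hr)) t
      rw [hn, Sb_add_int]
    have h4 : ∑ c ∈ (range r).filter (fun c => Nat.Coprime c r),
        ‖∑ n ∈ (Ioc M (M + 3 * X)).filter Nat.Prime, e ((n : ℝ) * (al N t + (c : ℝ) / r))‖ ^ 2
        = ∑ c ∈ (range r).filter (fun c => Nat.Coprime c r),
          ‖Sb M X (al N (t + ((c * (N / r) : ℕ) : ZMod N)))‖ ^ 2 :=
      Finset.sum_congr rfl fun c _ => (h2 c).trans (h3 c)
    rw [h4] at h1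
    have h5 : ‖Sb M X (al N t)‖ ^ 2 ≤ r * ∑ c ∈ (range r).filter (fun c => Nat.Coprime c r),
          ‖Sb M X (al N (t + ((c * (N / r) : ℕ) : ZMod N)))‖ ^ 2 := h1
    rw [one_div, inv_mul_le_iff₀ hr0]
    exact h5
  set T : Finset (Σ _ : ℕ, ℕ × ZMod N) :=
    (rough Q R).sigma (fun r => ((range r).filter (fun c => Nat.Coprime c r)) ×ˢ E) with hT
  set f : (Σ _ : ℕ, ℕ × ZMod N) → ZMod N :=
    fun x => x.2.2 + ((x.2.1 * (N / x.1) : ℕ) : ZMod N) with hf
  have hinj : Set.InjOn f T := by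
    rintro ⟨r, c, t⟩ h1 ⟨r', c', t'⟩ h2 h3
    rw [hT, Finset.mem_coe, Finset.mem_sigma, Finset.mem_product, Finset.mem_filter, Finset.mem_range]
      at h1 h2
    obtain ⟨hr, ⟨hc, hcr⟩, ht⟩ := h1
    obtain ⟨hr', ⟨hc', hcr'⟩, ht'⟩ := h2
    dsimp only at hr hc hcr ht hr' hc' hcr' ht'
    have h4 : t + ((c * (N / r) : ℕ) : ZMod N) = t' + ((c' * (N / r') : ℕ) : ZMod N) := h3
    obtain ⟨n, hn⟩ := al_shift N r c (hN r hr) t
    obtain ⟨n', hn'⟩ := al_shift N r' c' (hN r' hr') t'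
    have h5 : Maj Q w (al N (t + ((c * (N / r) : ℕ) : ZMod N)) - (c : ℝ) / r) := by
      have h6 : al N (t + ((c * (N / r) : ℕ) : ZMod N)) - (c : ℝ) / r = al N t + n := by
        rw [hn]
        ring
      rw [h6]
      exact maj_add_int (hE t ht) n
    have h7 : Maj Q w (al N (t + ((c * (N / r) : ℕ) : ZMod N)) - (c' : ℝ) / r') := by
      have h6 : al N (t + ((c * (N / r) : ℕ) : ZMod N)) - (c' : ℝ) / r' = al N t' + n' := by
        rw [h4, hn']
        ring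
      rw [h6]
      exact maj_add_int (hE t' ht') n'
    obtain ⟨h8, h9⟩ := disj Q R w _ hw r r' c c' hr hr' hc hc' hcr hcr' h5 h7
    subst h8
    subst h9
    have h10 : t = t' := add_right_cancel h4
    rw [h10]
  have hsum : ∑ x ∈ T, ‖Sb M X (al N (f x))‖ ^ 2 ≤ (N : ℝ) * Ab M X := by
    rw [← sum_Sb_sq M X N hN3, ← Finset.sum_image (s := T) (g := f)
      (f := fun u => ‖Sb M X (al N u)‖ ^ 2) hinj]
    exact Finset.sum_le_univ_sum_of_nonneg fun u => by positivity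
  refine le_trans ?_ hsum
  rw [hT, Finset.sum_sigma, Finset.sum_mul]
  refine Finset.sum_le_sum fun r hr => ?_
  rw [Finset.sum_product, Finset.sum_comm, Finset.mul_sum]
  exact Finset.sum_le_sum fun t ht => hlift r hr t ht

end Pool.Agent.H43.LR
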