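import Pool.Agent.H26.LDP.Parseval
import Pool.Agent.H43.LR.Mass

/-!
# Plancherel for the differences of the counting function of a block (after `H26/LDP/Planch`)

`Y = b^3`; all `(b+m)^3 + k` (+h) lie in `(Y, Y+3X]`; shifts are `s = (b+m)^3 + (h)` in `[Y, Y+2X]`.
-/

namespace Pool.Agent.H43.LR

open Finset Pool.Agent.H26.LDP

/-- the indicator of the primes in `(Y, Y+3X]`, on the integers -/
noncomputable def ind (Y X : ℕ) (n : ℤ) : ℂ :=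
  if (Y : ℤ) < n ∧ n ≤ Y + 3 * X ∧ n.toNat.Prime then 1 else 0

theorem shift_sum (Y X s : ℕ) (hs1 : Y ≤ s) (hs : s ≤ Y + 2 * X) (x : ℝ) :
    ∑ k ∈ Ico (-(2 * X : ℤ)) (-(2 * X : ℤ) + ((5 * X + 1 : ℕ) : ℤ)),
      ind Y X (k + s) * e ((k : ℝ) * x) = Sb Y X x * e (-((s : ℝ) * x)) := by
  classical
  unfold Sb ind
  simp only [ite_mul, one_mul, zero_mul]
  rw [← sum_filter, sum_mul]
  refine sum_bij' (fun k _ => (k + s).toNat) (fun n _ => (n : ℤ) - s) ?_ ?_ ?_ ?_ ?_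
  · intro k hk
    rw [mem_filter, mem_Ico] at hk
    obtain ⟨_, h1, h2, h3⟩ := hk
    rw [mem_filter, mem_Ioc]
    refine ⟨⟨by omega, by omega⟩, h3⟩
  · intro n hn
    rw [mem_filter, mem_Ioc] at hn
    rw [mem_filter, mem_Ico]
    have h1 : (n : ℤ) - s + s = n := by ring
    rw [h1, Int.toNat_natCast]
    refine ⟨⟨by omega, by push_cast; omega⟩, by omega, by omega, hn.2⟩
  · intro k hk
    rw [mem_filter, mem_Ico] at hk
    obtain ⟨_, h1, h2, h3⟩ := hk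
    have : 0 ≤ k + s := by omega
    rw [Int.toNat_of_nonneg this]
    ring
  · intro n hn
    simp
  · intro k hk
    rw [mem_filter, mem_Ico] at hk
    obtain ⟨_, h1, h2, h3⟩ := hk
    have h4 : 0 ≤ k + s := by omega
    have h5 : (((k + s).toNat : ℕ) : ℝ) = (k : ℝ) + s := by
      have : (((k + s).toNat : ℕ) : ℤ) = k + s := Int.toNat_of_nonneg h4
      exact_mod_cast congrArg (Int.cast : ℤ → ℝ) this
    rw [h5, ← e_add]
    congr 1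
    ring

/-- the difference function -/
noncomputable def ff (b L X h : ℕ) (k : ℤ) : ℂ :=
  ∑ m ∈ Icc 1 L, (ind (b ^ 3) X (k + ((b + m) ^ 3 : ℕ)) - ind (b ^ 3) X (k + ((b + m) ^ 3 + h : ℕ)))

theorem ff_hat (b L X h : ℕ) (hM : (b + L) ^ 3 ≤ b ^ 3 + X) (hh : h ≤ X) (x : ℝ) :
    ∑ k ∈ Ico (-(2 * X : ℤ)) (-(2 * X : ℤ) + ((5 * X + 1 : ℕ) : ℤ)),
      ff b L X h k * e ((k : ℝ) * x) =
      Sb (b ^ 3) X x * ((starRingEnd ℂ) (Cb b L x) * (1 - e (-((h : ℝ) * x)))) := by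
  unfold ff
  simp only [sum_mul, sub_mul]
  rw [sum_comm]
  have h1 : ∀ m ∈ Icc 1 L, ∑ k ∈ Ico (-(2 * X : ℤ)) (-(2 * X : ℤ) + ((5 * X + 1 : ℕ) : ℤ)),
      (ind (b ^ 3) X (k + ((b + m) ^ 3 : ℕ)) * e ((k : ℝ) * x) -
        ind (b ^ 3) X (k + ((b + m) ^ 3 + h : ℕ)) * e ((k : ℝ) * x)) =
      Sb (b ^ 3) X x * ((starRingEnd ℂ) (e (((b + m : ℕ) : ℝ) ^ 3 * x)) *
        (1 - e (-((h : ℝ) * x)))) := by
    intro m hm
    rw [mem_Icc] at hm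
    have h2 : (b + m) ^ 3 ≤ (b + L) ^ 3 := Nat.pow_le_pow_left (by omega) 3
    have h2' : b ^ 3 ≤ (b + m) ^ 3 := Nat.pow_le_pow_left (by omega) 3
    rw [sum_sub_distrib, shift_sum (b ^ 3) X ((b + m) ^ 3) h2' (by omega) x,
      shift_sum (b ^ 3) X ((b + m) ^ 3 + h) (by omega) (by omega) x, ← e_neg]
    have h3 : e (-((((b + m) ^ 3 + h : ℕ) : ℝ) * x)) =
        e (-(((b + m : ℕ) : ℝ) ^ 3 * x)) * e (-((h : ℝ) * x)) := by
      rw [← e_add]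
      congr 1
      push_cast
      ring
    rw [h3]
    push_cast
    ring
  rw [sum_congr rfl h1, ← mul_sum, ← sum_mul]
  unfold Cb
  rw [map_sum]

theorem ind_nat (Y X n : ℕ) (h1 : Y < n) (h2 : n ≤ Y + 3 * X) :
    ind Y X (n : ℤ) = if n.Prime then 1 else 0 := by
  unfold ind
  rw [Int.toNat_natCast]
  have h3 : ((Y : ℤ) < n ∧ (n : ℤ) ≤ Y + 3 * X ∧ n.Prime) ↔ n.Prime :=
    ⟨fun h => h.2.2, fun h => ⟨by omega, by omega, h⟩⟩
  by_cases h : n.Prime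
  · rw [if_pos (h3.mpr h), if_pos h]
  · rw [if_neg (fun hh => h (h3.mp hh)), if_neg h]

theorem sum_ind (b L X k : ℕ) (hM : (b + L) ^ 3 ≤ b ^ 3 + X) (h1 : 0 < k) (h2 : k ≤ 2 * X) :
    ∑ m ∈ Icc 1 L, ind (b ^ 3) X ((k + (b + m) ^ 3 : ℕ) : ℤ) = (cb b L k : ℂ) := by
  have h3 : ∀ m ∈ Icc 1 L, ind (b ^ 3) X ((k + (b + m) ^ 3 : ℕ) : ℤ) =
      if ((b + m) ^ 3 + k).Prime then 1 else 0 := by
    intro m hm
    rw [mem_Icc] at hm
    have h4 : (b + m) ^ 3 ≤ (b + L) ^ 3 := Nat.pow_le_pow_left (by omega) 3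
    have h5 : b ^ 3 ≤ (b + m) ^ 3 := Nat.pow_le_pow_left (by omega) 3
    rw [ind_nat (b ^ 3) X (k + (b + m) ^ 3) (by omega) (by omega), add_comm k]
  rw [sum_congr rfl h3]
  unfold cb
  rw [sum_boole]

theorem ff_eq (b L X h k : ℕ) (hM : (b + L) ^ 3 ≤ b ^ 3 + X) (hh : h ≤ X) (h1 : 0 < k)
    (h2 : k ≤ X) : ff b L X h k = (((cb b L k : ℝ) - cb b L (k + h) : ℝ) : ℂ) := by
  unfold ff
  rw [sum_sub_distrib]
  have h3 := sum_ind b L X k hM h1 (by omega)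
  have h4 := sum_ind b L X (k + h) hM (by omega) (by omega)
  have h5 : ∑ m ∈ Icc 1 L, ind (b ^ 3) X ((k : ℤ) + ((b + m) ^ 3 : ℕ)) = (cb b L k : ℂ) := by
    rw [← h3]
    refine sum_congr rfl fun m _ => ?_
    congr 1
  have h6 : ∑ m ∈ Icc 1 L, ind (b ^ 3) X ((k : ℤ) + ((b + m) ^ 3 + h : ℕ)) =
      (cb b L (k + h) : ℂ) := by
    rw [← h4]
    refine sum_congr rfl fun m _ => ?_
    congr 1
    push_cast
    ring
  rw [h5, h6]
  push_cast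
  rfl

theorem planch_b (b L X h N : ℕ) [NeZero N] (hM : (b + L) ^ 3 ≤ b ^ 3 + X) (hh : h ≤ X)
    (hN : 6 * X < N) :
    (N : ℝ) * ∑ k ∈ Icc 1 X, ((cb b L k : ℝ) - cb b L (k + h)) ^ 2 ≤
      ∑ t : ZMod N, ‖Sb (b ^ 3) X (al N t)‖ ^ 2 * ‖Cb b L (al N t)‖ ^ 2 *
        ‖1 - e ((h : ℝ) * al N t)‖ ^ 2 := by
  have h1 := parseval N (-(2 * X : ℤ)) (5 * X + 1) (by omega) (ff b L X h)
  have h2 : ∀ t : ZMod N, ‖∑ k ∈ Ico (-(2 * X : ℤ)) (-(2 * X : ℤ) + ((5 * X + 1 : ℕ) : ℤ)),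
      ff b L X h k * e ((k : ℝ) * al N t)‖ ^ 2 =
      ‖Sb (b ^ 3) X (al N t)‖ ^ 2 * ‖Cb b L (al N t)‖ ^ 2 * ‖1 - e ((h : ℝ) * al N t)‖ ^ 2 := by
    intro t
    rw [ff_hat b L X h hM hh, norm_mul, norm_mul, RCLike.norm_conj]
    have h3 : ‖1 - e (-((h : ℝ) * al N t))‖ = ‖1 - e ((h : ℝ) * al N t)‖ := by
      rw [e_neg, ← RCLike.norm_conj (1 - e ((h : ℝ) * al N t)), map_sub, map_one]
    rw [h3]
    ring
  rw [← sum_congr rfl fun t _ => h2 t, h1]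
  refine mul_le_mul_of_nonneg_left ?_ (Nat.cast_nonneg N)
  have h4 : ∑ k ∈ Icc 1 X, ((cb b L k : ℝ) - cb b L (k + h)) ^ 2 =
      ∑ k ∈ (Icc 1 X).map Nat.castEmbedding, ‖ff b L X h k‖ ^ 2 := by
    rw [sum_map]
    refine sum_congr rfl fun k hk => ?_
    rw [mem_Icc] at hk
    rw [Nat.castEmbedding_apply, ff_eq b L X h k hM hh (by omega) hk.2, Complex.norm_real,
      Real.norm_eq_abs, sq_abs]
  rw [h4]
  refine sum_le_sum_of_subset_of_nonneg ?_ fun _ _ _ => sq_nonneg _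
  intro k hk
  rw [mem_map] at hk
  obtain ⟨n, hn, rfl⟩ := hk
  rw [mem_Icc] at hn
  rw [Nat.castEmbedding_apply, mem_Ico]
  constructor
  · omega
  · push_cast
    omega

end Pool.Agent.H43.LR
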