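import Pool.Agent.H26.LDP.Final
import Pool.Agent.H24.LJ.Pairs
import Pool.Agent.H43.LR.Core

/-!
# The local density theorem for a block (after `H26/LDP/Final`)
-/

namespace Pool.Agent.H43.LR

open Finset Pool.Agent.H26.LDP

theorem chebAb : ∃ K : ℝ, 0 < K ∧ ∀ Y X : ℕ, 2 ≤ X → (Ab Y X : ℝ) ≤ K * X / Real.log X := by
  obtain ⟨C, hC, h⟩ := H24.LJ.pi_loc
  refine ⟨3 * C, by positivity, fun Y X hX => ?_⟩
  have h1 := h Y (3 * X) (by omega)
  have hX' : (2 : ℝ) ≤ X := by exact_mod_cast hX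
  have hlog : 0 < Real.log X := Real.log_pos (by linarith)
  have hlog' : Real.log X ≤ Real.log ((3 * X : ℕ) : ℝ) := by
    apply Real.log_le_log (by linarith)
    push_cast
    linarith
  calc (Ab Y X : ℝ) ≤ C * ((3 * X : ℕ) : ℝ) / Real.log ((3 * X : ℕ) : ℝ) := h1
    _ ≤ C * ((3 * X : ℕ) : ℝ) / Real.log X := by
        apply div_le_div_of_nonneg_left (by positivity) hlog hlog'
    _ = 3 * C * X / Real.log X := by
        push_cast
        ring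

theorem sq_diff_le_b (b M k h : ℕ) : ((cb b M k : ℝ) - cb b M (k + h)) ^ 2 ≤ (M : ℝ) ^ 2 := by
  have h1 : (cb b M k : ℝ) ≤ M := by exact_mod_cast cb_le b M k
  have h2 : (cb b M (k + h) : ℝ) ≤ M := by exact_mod_cast cb_le b M (k + h)
  have h3 : (0 : ℝ) ≤ cb b M k := Nat.cast_nonneg _
  have h4 : (0 : ℝ) ≤ cb b M (k + h) := Nat.cast_nonneg _
  exact sq_le_sq' (by linarith) (by linarith)

theorem final_b (θ : ℝ) (hθ : 0 < θ) : ∃ K : ℝ, 0 < K ∧ ∀ X b M Q h : ℕ, 2 ≤ X → (X : ℝ) ^ θ ≤ M →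
    (b + M) ^ 3 ≤ b ^ 3 + X → M ≤ b ^ 3 → 1 ≤ Q → (∀ q : ℕ, 1 ≤ q → q ≤ Q → q ∣ h) → h * Q ^ 2 ≤ M ^ 3 →
    ∑ k ∈ Icc 1 X, ((cb b M k : ℝ) - cb b M (k + h)) ^ 2 ≤
      K * (Q : ℝ) ^ (-(1 : ℝ) / 24) * X * (M / Real.log X) ^ 2 := by
  obtain ⟨K, hK, hcore⟩ := core_b
  obtain ⟨KA, hKA, hcheb⟩ := chebAb
  -- the threshold
  obtain ⟨X₀, hX₀⟩ : ∃ X₀ : ℕ, ∀ X : ℕ, X₀ ≤ X → 1 ≤ Real.log X ∧
      2 ^ 193 * (2 * Real.log X) ^ 72 < (X : ℝ) ^ θ := by
    have h1 := (isLittleO_log_rpow_rpow_atTop 72 hθ).bound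
      (show (0 : ℝ) < 1 / (2 ^ 194 * 2 ^ 72) by positivity)
    have h2 : ∀ᶠ x : ℝ in Filter.atTop, 1 ≤ Real.log x :=
      Real.tendsto_log_atTop.eventually_ge_atTop 1
    have h3 := (h1.and h2).and (Filter.eventually_gt_atTop (0 : ℝ))
    obtain ⟨X₀, hX₀⟩ := Filter.eventually_atTop.1 (tendsto_natCast_atTop_atTop.eventually h3)
    refine ⟨X₀, fun X hX => ?_⟩
    obtain ⟨⟨h4, h5⟩, h6⟩ := hX₀ X hX
    refine ⟨h5, ?_⟩
    have h7 : Real.log X ^ (72 : ℝ) = Real.log X ^ 72 := by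
      rw [show (72 : ℝ) = ((72 : ℕ) : ℝ) by norm_num, Real.rpow_natCast]
    rw [h7, Real.norm_of_nonneg (by positivity), Real.norm_of_nonneg (by positivity)] at h4
    have h8 : 0 < (X : ℝ) ^ θ := Real.rpow_pos_of_pos h6 θ
    calc 2 ^ 193 * (2 * Real.log X) ^ 72 = 2 ^ 193 * 2 ^ 72 * Real.log X ^ 72 := by ring
      _ ≤ 2 ^ 193 * 2 ^ 72 * (1 / (2 ^ 194 * 2 ^ 72) * (X : ℝ) ^ θ) :=
        mul_le_mul_of_nonneg_left h4 (by positivity)
      _ = 1 / 2 * (X : ℝ) ^ θ := by ring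
      _ < (X : ℝ) ^ θ := by linarith
  set L₀ : ℝ := Real.log (X₀ + 2) with hL₀
  have hL₀0 : 0 < L₀ := Real.log_pos (by
    have : (0 : ℝ) ≤ X₀ := Nat.cast_nonneg _
    linarith)
  set K₁ : ℝ := K * KA * (6 + (16 + 2 ^ 128) / θ) + 1 with hK₁
  have hK₁0 : 0 < K₁ := by positivity
  refine ⟨K₁ + L₀ ^ 2 * (6 * L₀ + 1), by positivity, fun X b M Q h hX hXM hbMX hMb hQ hdiv hhM => ?_⟩
  have hMX : M ^ 3 ≤ X := by
    have h1 : (b + M) ^ 3 = b ^ 3 + M ^ 3 + (3 * b ^ 2 * M + 3 * b * M ^ 2) := by ring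
    omega
  have hXr : (2 : ℝ) ≤ X := by exact_mod_cast hX
  have hX0 : (0 : ℝ) < X := by linarith
  have hL0 : 0 < Real.log X := Real.log_pos (by linarith)
  have hQr : (1 : ℝ) ≤ Q := by exact_mod_cast hQ
  have hQ0 : (0 : ℝ) < Q := by linarith
  set qe : ℝ := (Q : ℝ) ^ (-(1 : ℝ) / 24) with hqe
  have hqe0 : 0 < qe := Real.rpow_pos_of_pos hQ0 _
  have hM0 : (0 : ℝ) < M := lt_of_lt_of_le (Real.rpow_pos_of_pos hX0 θ) hXM
  have hM1 : 1 ≤ M := by
    have : 0 < M := by exact_mod_cast hM0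
    omega
  rcases Nat.eq_zero_or_pos h with h0 | h0
  · subst h0
    simp only [Nat.add_zero, sub_self, ne_eq, OfNat.ofNat_ne_zero, not_false_eq_true, zero_pow,
      sum_const_zero]
    positivity
  have hhM3 : h ≤ M ^ 3 := by
    calc h = h * 1 := (mul_one h).symm
      _ ≤ h * Q ^ 2 := Nat.mul_le_mul_left h (Nat.one_le_pow _ _ hQ)
      _ ≤ M ^ 3 := hhM
  have hhX : h ≤ X := hhM3.trans hMX
  have hQL := Q_le_log X Q h hX h0 hhX hdiv
  -- Q^{-1/24} ≥ 1/Q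
  have hqeQ : 1 / (Q : ℝ) ≤ qe := by
    rw [hqe, one_div, ← Real.rpow_neg_one]
    exact Real.rpow_le_rpow_of_exponent_le hQr (by norm_num)
  rcases Nat.lt_or_ge X X₀ with hXX | hXX
  · -- small X
    have hL : Real.log X ≤ L₀ := by
      apply Real.log_le_log hX0
      have : (X : ℝ) < X₀ := by exact_mod_cast hXX
      linarith
    have h1 : ∑ k ∈ Icc 1 X, ((cb b M k : ℝ) - cb b M (k + h)) ^ 2 ≤ X * (M : ℝ) ^ 2 := by
      calc _ ≤ ∑ k ∈ Icc 1 X, (M : ℝ) ^ 2 := sum_le_sum fun k _ => sq_diff_le_b b M k h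
        _ = _ := by simp
    have h2 : 1 ≤ L₀ ^ 2 * (6 * L₀ + 1) * qe / Real.log X ^ 2 := by
      rw [le_div_iff₀ (by positivity), one_mul]
      have h3 : Real.log X ^ 2 ≤ L₀ ^ 2 := pow_le_pow_left₀ hL0.le hL 2
      have h4 : 1 ≤ (6 * L₀ + 1) * qe := by
        calc 1 = (Q : ℝ) * (1 / Q) := by field_simp
          _ ≤ (6 * L₀ + 1) * qe := by
            apply mul_le_mul _ hqeQ (by positivity) (by positivity)
            linarith
      calc Real.log X ^ 2 ≤ L₀ ^ 2 := h3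
        _ = L₀ ^ 2 * 1 := (mul_one _).symm
        _ ≤ L₀ ^ 2 * ((6 * L₀ + 1) * qe) := mul_le_mul_of_nonneg_left h4 (by positivity)
        _ = _ := by ring
    calc _ ≤ X * (M : ℝ) ^ 2 := h1
      _ = X * (M : ℝ) ^ 2 * 1 := (mul_one _).symm
      _ ≤ X * (M : ℝ) ^ 2 * (L₀ ^ 2 * (6 * L₀ + 1) * qe / Real.log X ^ 2) :=
        mul_le_mul_of_nonneg_left h2 (by positivity)
      _ = L₀ ^ 2 * (6 * L₀ + 1) * qe * X * (M / Real.log X) ^ 2 := by
        field_simp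
      _ ≤ _ := by
        have : 0 ≤ K₁ * qe * X * (M / Real.log X) ^ 2 := by positivity
        nlinarith
  -- large X
  obtain ⟨hL1, hbig⟩ := hX₀ X hXX
  set L : ℝ := Real.log X with hL
  set I : ℕ := ⌈Real.logb 2 L⌉₊ with hI
  have hI1 : L ≤ 2 ^ I := by
    have h1 : Real.logb 2 L ≤ I := Nat.le_ceil _
    rw [Real.logb_le_iff_le_rpow (by norm_num) hL0, Real.rpow_natCast] at h1
    exact h1
  have hI2 : (2 : ℝ) ^ I ≤ 2 * L := by
    have h1 : (I : ℝ) < Real.logb 2 L + 1 := Nat.ceil_lt_add_one (Real.logb_nonneg (by norm_num) hL1)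
    have h2 : (2 : ℝ) ^ (I : ℝ) ≤ 2 ^ (Real.logb 2 L + 1) :=
      Real.rpow_le_rpow_of_exponent_le (by norm_num) h1.le
    rw [Real.rpow_natCast, Real.rpow_add (by norm_num), Real.rpow_logb (by norm_num) (by norm_num) hL0,
      Real.rpow_one] at h2
    linarith
  have hbigM : (2 : ℝ) ^ 193 * (2 * L) ^ 72 < M := lt_of_lt_of_le hbig hXM
  have hIM : 2 ^ (193 + 72 * I) < M := by
    have h1 : (2 : ℝ) ^ (193 + 72 * I) < M := by
      calc (2 : ℝ) ^ (193 + 72 * I) = 2 ^ 193 * (2 ^ I) ^ 72 := by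
            rw [pow_add, ← pow_mul, mul_comm I 72]
        _ ≤ 2 ^ 193 * (2 * L) ^ 72 := by
            apply mul_le_mul_of_nonneg_left _ (by positivity)
            exact pow_le_pow_left₀ (by positivity) hI2 72
        _ < M := hbigM
    exact_mod_cast h1
  set i₀ : ℕ := (Nat.log 2 Q - 64) / 24 with hi₀
  have hi₀1 : 0 < i₀ → 2 ^ (64 + 24 * i₀) ≤ Q := by
    intro h1
    have h2 : 64 + 24 * i₀ ≤ Nat.log 2 Q := by omega
    calc 2 ^ (64 + 24 * i₀) ≤ 2 ^ Nat.log 2 Q := Nat.pow_le_pow_right (by norm_num) h2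
      _ ≤ Q := Nat.pow_log_le_self 2 (by omega)
  have hi₀2 : Q < 2 ^ (88 + 24 * i₀) := by
    have h2 : Nat.log 2 Q < 88 + 24 * i₀ := by omega
    calc Q < 2 ^ (Nat.log 2 Q + 1) := Nat.lt_pow_succ_log_self (by norm_num) Q
      _ ≤ 2 ^ (88 + 24 * i₀) := Nat.pow_le_pow_right (by norm_num) (by omega)
  have hi₀I : i₀ ≤ I := by
    rcases Nat.eq_zero_or_pos i₀ with h1 | h1
    · omega
    · have h2 : (2 : ℝ) ^ (64 + 24 * i₀) ≤ Q := by exact_mod_cast hi₀1 h1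
      have h3 : (2 : ℝ) ^ (64 + 24 * i₀) ≤ 2 ^ (3 + I) := by
        calc (2 : ℝ) ^ (64 + 24 * i₀) ≤ Q := h2
          _ ≤ 6 * L := hQL
          _ ≤ 2 ^ 3 * 2 ^ I := by linarith
          _ = 2 ^ (3 + I) := by rw [pow_add]
      have h4 : 64 + 24 * i₀ ≤ 3 + I := (pow_le_pow_iff_right₀ (by norm_num)).1 h3
      omega
  have hc := hcore X b M h i₀ I hbMX hMb hhX hIM hi₀I (fun q hq0 hq1 hq2 => hdiv q hq1 (hq2.trans (hi₀1 hq0)))
  have hA := hcheb (b ^ 3) X hX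
  have hlogM : θ * L ≤ Real.log M := by
    have h1 := Real.log_le_log (Real.rpow_pos_of_pos hX0 θ) hXM
    rwa [Real.log_rpow hX0] at h1
  have hlogM0 : 0 < Real.log M := lt_of_lt_of_le (by positivity) hlogM
  -- the three terms
  have hT1 : (1 / 4 : ℝ) ^ I ≤ 6 * qe / L := by
    have h1 : (1 / 4 : ℝ) ^ I = 1 / (2 ^ I) ^ 2 := by
      rw [← pow_mul, mul_comm I 2, pow_mul]
      rw [one_div, inv_pow, one_div]
      norm_num
    rw [h1]
    calc 1 / ((2 : ℝ) ^ I) ^ 2 ≤ 1 / L ^ 2 := by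
          apply div_le_div_of_nonneg_left (by norm_num) (by positivity)
          exact pow_le_pow_left₀ hL0.le hI1 2
      _ = 1 / L * (1 / L) := by
          field_simp
      _ ≤ 6 * qe * (1 / L) := by
          apply mul_le_mul_of_nonneg_right _ (by positivity)
          calc 1 / L ≤ 6 * (1 / Q) := by
                rw [mul_one_div, div_le_div_iff₀ hL0 hQ0]
                linarith
            _ ≤ 6 * qe := by linarith
      _ = _ := by ring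
  have hT2 : (1 / 2 : ℝ) ^ i₀ ≤ 16 * qe := by
    have h1 : (Q : ℝ) ≤ 2 ^ (88 + 24 * i₀) := by exact_mod_cast hi₀2.le
    have h2 : (Q : ℝ) ^ ((1 : ℝ) / 24) ≤ 16 * 2 ^ i₀ := by
      calc (Q : ℝ) ^ ((1 : ℝ) / 24) ≤ ((2 : ℝ) ^ (88 + 24 * i₀)) ^ ((1 : ℝ) / 24) :=
            Real.rpow_le_rpow hQ0.le h1 (by norm_num)
        _ ≤ ((2 : ℝ) ^ (24 * (4 + i₀))) ^ ((1 : ℝ) / 24) := by
            apply Real.rpow_le_rpow (by positivity) _ (by norm_num)
            apply pow_le_pow_right₀ (by norm_num)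
            omega
        _ = 16 * 2 ^ i₀ := by
            rw [← Real.rpow_natCast, ← Real.rpow_mul (by norm_num)]
            push_cast
            rw [show (24 * (4 + (i₀ : ℝ)) * (1 / 24)) = ((4 + i₀ : ℕ) : ℝ) by push_cast; ring,
              Real.rpow_natCast, pow_add]
            norm_num
    have h3 : qe = ((Q : ℝ) ^ ((1 : ℝ) / 24))⁻¹ := by
      rw [hqe, ← Real.rpow_neg hQ0.le]
      congr 1
      ring
    have h4 : 0 < (Q : ℝ) ^ ((1 : ℝ) / 24) := Real.rpow_pos_of_pos hQ0 _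
    rw [h3, one_div, inv_pow, ← div_eq_mul_inv, inv_eq_one_div, div_le_div_iff₀ (by positivity) h4]
    linarith
  have hT3 : ((h : ℝ) * 2 ^ (64 + 24 * i₀) / (M : ℝ) ^ 3) ^ 2 * 2 ^ i₀ ≤ 2 ^ 128 * qe := by
    have h1 : (2 : ℝ) ^ (64 + 24 * i₀) ≤ 2 ^ 64 * Q := by
      rcases Nat.eq_zero_or_pos i₀ with h1 | h1
      · rw [h1]
        norm_num
        linarith
      · have h2 : (2 : ℝ) ^ (64 + 24 * i₀) ≤ Q := by exact_mod_cast hi₀1 h1
        calc (2 : ℝ) ^ (64 + 24 * i₀) ≤ 1 * Q := by linarith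
          _ ≤ 2 ^ 64 * Q := mul_le_mul_of_nonneg_right (by norm_num) hQ0.le
    have h2 : (2 : ℝ) ^ i₀ ≤ Q := by
      rcases Nat.eq_zero_or_pos i₀ with h2 | h2
      · rw [h2]
        simpa using hQr
      · have h3 : (2 : ℝ) ^ (64 + 24 * i₀) ≤ Q := by exact_mod_cast hi₀1 h2
        calc (2 : ℝ) ^ i₀ ≤ 2 ^ (64 + 24 * i₀) := by
              apply pow_le_pow_right₀ (by norm_num)
              omega
          _ ≤ Q := h3
    have h3 : (h : ℝ) * Q ^ 2 ≤ (M : ℝ) ^ 3 := by exact_mod_cast hhM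
    have h4 : (h : ℝ) * 2 ^ (64 + 24 * i₀) / (M : ℝ) ^ 3 ≤ 2 ^ 64 / Q := by
      rw [div_le_div_iff₀ (by positivity) hQ0]
      calc (h : ℝ) * 2 ^ (64 + 24 * i₀) * Q ≤ h * (2 ^ 64 * Q) * Q := by
            apply mul_le_mul_of_nonneg_right _ hQ0.le
            exact mul_le_mul_of_nonneg_left h1 (Nat.cast_nonneg h)
        _ = 2 ^ 64 * (h * Q ^ 2) := by ring
        _ ≤ 2 ^ 64 * (M : ℝ) ^ 3 := mul_le_mul_of_nonneg_left h3 (by positivity)
    calc ((h : ℝ) * 2 ^ (64 + 24 * i₀) / (M : ℝ) ^ 3) ^ 2 * (2 : ℝ) ^ i₀ ≤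
          ((2 : ℝ) ^ 64 / (Q : ℝ)) ^ 2 * (Q : ℝ) := by
          apply mul_le_mul _ h2 (by positivity) (by positivity)
          exact pow_le_pow_left₀ (by positivity) h4 2
      _ = 2 ^ 128 * (1 / (Q : ℝ)) := by
          rw [div_pow, ← pow_mul]
          norm_num
          field_simp
      _ ≤ 2 ^ 128 * qe := mul_le_mul_of_nonneg_left hqeQ (by positivity)
  have hsum : (1 / 4 : ℝ) ^ I + (1 / 2) ^ i₀ / Real.log M +
      ((h : ℝ) * 2 ^ (64 + 24 * i₀) / (M : ℝ) ^ 3) ^ 2 * 2 ^ i₀ / Real.log M ≤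
      (6 + (16 + 2 ^ 128) / θ) * qe / L := by
    have h1 : (1 / 2 : ℝ) ^ i₀ / Real.log M ≤ 16 * qe / (θ * L) :=
      div_le_div₀ (by positivity) hT2 (by positivity) hlogM
    have h2 : ((h : ℝ) * 2 ^ (64 + 24 * i₀) / (M : ℝ) ^ 3) ^ 2 * 2 ^ i₀ / Real.log M ≤
        2 ^ 128 * qe / (θ * L) := div_le_div₀ (by positivity) hT3 (by positivity) hlogM
    calc _ ≤ 6 * qe / L + 16 * qe / (θ * L) + 2 ^ 128 * qe / (θ * L) := add_le_add (add_le_add hT1 h1) h2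
      _ = _ := by
        field_simp
        ring
  have hlarge : ∑ k ∈ Icc 1 X, ((cb b M k : ℝ) - cb b M (k + h)) ^ 2 ≤
      K * KA * (6 + (16 + 2 ^ 128) / θ) * qe * X * (M / L) ^ 2 := by
    have hs0 : 0 ≤ (1 / 4 : ℝ) ^ I + (1 / 2) ^ i₀ / Real.log M +
      ((h : ℝ) * 2 ^ (64 + 24 * i₀) / (M : ℝ) ^ 3) ^ 2 * 2 ^ i₀ / Real.log M := by positivity
    calc _ ≤ _ := hc
      _ ≤ K * (KA * X / L) * (M : ℝ) ^ 2 * ((6 + (16 + 2 ^ 128) / θ) * qe / L) := by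
        apply mul_le_mul _ hsum hs0 (by positivity)
        apply mul_le_mul_of_nonneg_right _ (by positivity)
        exact mul_le_mul_of_nonneg_left hA hK.le
      _ = _ := by
        field_simp
  calc _ ≤ K * KA * (6 + (16 + 2 ^ 128) / θ) * qe * X * (M / L) ^ 2 := hlarge
    _ ≤ K₁ * qe * X * (M / L) ^ 2 := by
        rw [hK₁]
        have : 0 ≤ qe * X * (M / L) ^ 2 := by positivity
        nlinarith
    _ ≤ _ := by
        have : 0 ≤ L₀ ^ 2 * (6 * L₀ + 1) * qe * X * (M / L) ^ 2 := by positivity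
        nlinarith

/-- averaging over the shifts -/
theorem final_avg_b (θ : ℝ) (hθ : 0 < θ) : ∃ K : ℝ, 0 < K ∧ ∀ X b M Q W J : ℕ, 2 ≤ X →
    (X : ℝ) ^ θ ≤ M → (b + M) ^ 3 ≤ b ^ 3 + X → M ≤ b ^ 3 → 1 ≤ Q → 1 ≤ J → (∀ q : ℕ, 1 ≤ q → q ≤ Q → q ∣ W) →
    W * J * Q ^ 2 ≤ M ^ 3 →
    ∑ k ∈ Icc 1 X, ((cb b M k : ℝ) -
        (((Icc 1 M ×ˢ range J).filter (fun p => ((b + p.1) ^ 3 + k + p.2 * W).Prime)).card : ℝ) / J) ^ 2 ≤
      K * (Q : ℝ) ^ (-(1 : ℝ) / 24) * X * (M / Real.log X) ^ 2 := by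
  obtain ⟨K, hK, hfin⟩ := final_b θ hθ
  refine ⟨K, hK, fun X b M Q W J hX hXM hMX hMb hQ hJ hdiv hWJ => ?_⟩
  have hJ0 : (0 : ℝ) < J := by exact_mod_cast hJ
  set R : ℝ := K * (Q : ℝ) ^ (-(1 : ℝ) / 24) * X * (M / Real.log X) ^ 2 with hR
  have hloc : ∀ k, ((((Icc 1 M ×ˢ range J).filter
      (fun p => ((b + p.1) ^ 3 + k + p.2 * W).Prime)).card : ℕ) : ℝ) = ∑ j ∈ range J, (cb b M (k + j * W) : ℝ) := by
    intro k
    have h1 : ((Icc 1 M ×ˢ range J).filter (fun p => ((b + p.1) ^ 3 + k + p.2 * W).Prime)).card =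
        ∑ j ∈ range J, cb b M (k + j * W) := by
      rw [card_filter, sum_product_right]
      apply sum_congr rfl
      intro j _
      unfold cb
      rw [card_filter]
      apply sum_congr rfl
      intro m _
      have : (b + m) ^ 3 + (k + j * W) = (b + m) ^ 3 + k + j * W := by ring
      rw [this]
    rw [h1]
    push_cast
    rfl
  have hpt : ∀ k, ((cb b M k : ℝ) -
        (((Icc 1 M ×ˢ range J).filter (fun p => ((b + p.1) ^ 3 + k + p.2 * W).Prime)).card : ℝ) / J) ^ 2 ≤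
      (1 / J) * ∑ j ∈ range J, ((cb b M k : ℝ) - cb b M (k + j * W)) ^ 2 := by
    intro k
    rw [hloc k]
    have h1 : (cb b M k : ℝ) -
        (∑ j ∈ range J, (cb b M (k + j * W) : ℝ)) / J =
        (1 / J) * ∑ j ∈ range J, ((cb b M k : ℝ) - cb b M (k + j * W)) := by
      rw [sum_sub_distrib, sum_const, card_range, nsmul_eq_mul]
      unfold cb
      field_simp
    rw [h1, mul_pow]
    have h2 := sq_sum_le_card_mul_sum_sq (s := range J)
      (f := fun j => ((cb b M k : ℝ) - cb b M (k + j * W)))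
    rw [card_range] at h2
    calc (1 / (J : ℝ)) ^ 2 * (∑ j ∈ range J, ((cb b M k : ℝ) - cb b M (k + j * W))) ^ 2 ≤
          (1 / (J : ℝ)) ^ 2 * (J * ∑ j ∈ range J, ((cb b M k : ℝ) - cb b M (k + j * W)) ^ 2) :=
          mul_le_mul_of_nonneg_left h2 (by positivity)
      _ = _ := by
        field_simp
  calc _ ≤ ∑ k ∈ Icc 1 X, (1 / (J : ℝ)) * ∑ j ∈ range J, ((cb b M k : ℝ) - cb b M (k + j * W)) ^ 2 :=
        sum_le_sum fun k _ => hpt k
    _ = (1 / (J : ℝ)) * ∑ j ∈ range J, ∑ k ∈ Icc 1 X, ((cb b M k : ℝ) - cb b M (k + j * W)) ^ 2 := by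
        rw [← mul_sum, sum_comm]
    _ ≤ (1 / (J : ℝ)) * ∑ j ∈ range J, R := by
        apply mul_le_mul_of_nonneg_left _ (by positivity)
        apply sum_le_sum
        intro j hj
        rw [mem_range] at hj
        apply hfin X b M Q (j * W) hX hXM hMX hMb hQ
        · intro q hq1 hq2
          exact Dvd.dvd.mul_left (hdiv q hq1 hq2) j
        · calc j * W * Q ^ 2 ≤ J * W * Q ^ 2 := by
                apply Nat.mul_le_mul_right
                exact Nat.mul_le_mul_right W hj.le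
            _ = W * J * Q ^ 2 := by ring
            _ ≤ M ^ 3 := hWJ
    _ = R := by
        rw [sum_const, card_range, nsmul_eq_mul]
        field_simp

end Pool.Agent.H43.LR
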