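import Pool.Agent.H43.LR.Base

/-!
# [H43 LR CPART] The predicted local averages add up to the Hardy-Littlewood main term

PROOF. `W = lcm(1..y)`, `HL.fin_lcm_prime` says `p ∣ W ↔ p <= y`. `N = 8 b^3`. The sum is
`A * (J W/(φ(W) log N)) / J` with `A = #{1<=m<=l : ((b+m)^3+k, W) = 1}`, which is the number for `[1,b+l]` minus
the number for `[1,b]`. By `HL.crt` (twice) `|A W/φ(W) - l S_y(k)| <= 2 W^2`, so the first term is
`l S_y(k)/log N + O(2 W^2/log N)`, `log N >= log X`.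
`0 <= S_y(k) <= W/φ(W) <= W`: each factor `(1 - nu/p)/(1 - 1/p)` is between `0` and `p/(p-1)` (`HL.nu <= p` as a
filtered `range p`), and the product of `p/(p-1) <= p` over the primes `p <= y`... is `<= ∏ p <= W` (the product of
the distinct primes `p ∣ W` divides `W`); `HL.S_pos` gives positivity.
For `1 <= m <= l <= b`: `X + (b+m)^3` is between `b^3` and `8b^3 + 8b^3 = 16 b^3` (use `X <= 8 b^3`), so
`|log N - log (X+(b+m)^3)| <= log 8 <= 3`, both logs are `>= (1/2) log X` for `X` large (`b^3 >= X/8`), so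
`|1/log N - wt X (b+m)| <= 3/((1/2) log X)^2 = 12/(log X)^2`.
Total: `<= 2 W^2/log X + W l 12/(log X)^2 <= y^(-1/48) l/log X` for `X >= X0(y)` (`l >= b/4 >= X^(1/3)/8`).
-/

namespace Pool.Agent.H43.LR

open Finset

/-- the count in a shifted interval -/
theorem cpart_shift (P : ℕ → Prop) [DecidablePred P] (b l : ℕ) :
    (((Icc 1 l).filter (fun m => P (b + m))).card : ℝ) =
      (((Icc 1 (b + l)).filter P).card : ℝ) - ((Icc 1 b).filter P).card := by
  induction l with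
  | zero => simp
  | succ n ih =>
    rw [← Nat.add_assoc, ← Finset.insert_Icc_right_eq_Icc_add_one (by omega),
      ← Finset.insert_Icc_right_eq_Icc_add_one (by omega), Finset.filter_insert,
      Finset.filter_insert]
    have e : b + (n + 1) = b + n + 1 := by ring
    rw [e]
    by_cases h : P (b + n + 1)
    · rw [if_pos h, if_pos h, Finset.card_insert_of_notMem (by simp),
        Finset.card_insert_of_notMem (by simp)]
      push_cast
      rw [ih]
      ring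
    · rw [if_neg h, if_neg h]
      exact ih

/-- the local product is at most `W` -/
theorem cpart_S_le (y W k : ℕ) (hW : 1 ≤ W) (h1 : ∀ p : ℕ, p.Prime → (p ∣ W ↔ p ≤ y)) :
    HL.S y k ≤ W := by
  have hW0 : (0 : ℝ) < W := by exact_mod_cast hW
  have hφ : (1 : ℝ) ≤ W.totient := by exact_mod_cast Nat.totient_pos.mpr hW
  by_contra hcon
  push Not at hcon
  obtain ⟨M, hM⟩ := exists_nat_gt ((W : ℝ) ^ 2 / (HL.S y k - W))
  have hd : 0 < HL.S y k - W := by linarith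
  rw [div_lt_iff₀ hd] at hM
  have h2 := HL.crt y W M k hW h1
  have h3 : (((Icc 1 M).filter (fun m => (m ^ 3 + k).Coprime W)).card : ℝ) ≤ M := by
    have := Finset.card_filter_le (Icc 1 M) (fun m => (m ^ 3 + k).Coprime W)
    rw [Nat.card_Icc] at this
    exact_mod_cast this
  have h4 : (((Icc 1 M).filter (fun m => (m ^ 3 + k).Coprime W)).card : ℝ) * (W / W.totient) ≤
      M * W := by
    apply mul_le_mul h3 _ (by positivity) (Nat.cast_nonneg M)
    exact div_le_self hW0.le hφ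
  have h5 := (abs_le.1 h2).1
  nlinarith

theorem cpart_aux (y W : ℕ) (η : ℝ) (hη0 : 0 < η) (hW1 : 1 ≤ W)
    (hWp : ∀ p : ℕ, p.Prime → (p ∣ W ↔ p ≤ y)) : ∃ X0 : ℕ, ∀ X b l J k : ℕ, X0 ≤ X →
    X ≤ 8 * b ^ 3 → b ≤ 4 * l → l ≤ b → 1 ≤ J →
    |(∑ m ∈ Icc 1 l, cc W J ((8 * b ^ 3 : ℕ) : ℝ) ((b + m) ^ 3 + k)) / J -
      HL.S y k * ∑ m ∈ Icc 1 l, wt X (b + m)| ≤ η * (l / Real.log X) := by
  have hW0 : (0 : ℝ) < W := by exact_mod_cast hW1
  have hφ : (0 : ℝ) < W.totient := by exact_mod_cast Nat.totient_pos.mpr hW1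
  obtain ⟨K, hK⟩ := exists_nat_ge (4 * (W : ℝ) ^ 2 / η)
  obtain ⟨E, hE⟩ := exists_nat_ge (Real.exp (6 * W / η + 1))
  refine ⟨8 * (4 * K) ^ 3 + E + 3, fun X b l J k hX hXb hbl hlb hJ => ?_⟩
  have hX3 : 3 ≤ X := by omega
  have hXE : E ≤ X := by omega
  have hXK : 8 * (4 * K) ^ 3 ≤ X := by omega
  have hX0 : (0 : ℝ) < X := by positivity
  have hlogX : 6 * W / η + 1 ≤ Real.log X := by
    rw [Real.le_log_iff_exp_le hX0]
    exact hE.trans (by exact_mod_cast hXE)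
  have hlog1 : 1 ≤ Real.log X := by
    have : 0 ≤ 6 * W / η := by positivity
    linarith
  have hbK : 4 * K ≤ b := by
    by_contra hcon
    push Not at hcon
    have h1 : b ^ 3 < (4 * K) ^ 3 := Nat.pow_lt_pow_left hcon (by norm_num)
    omega
  have hlK : K ≤ l := by omega
  have hlK' : 4 * (W : ℝ) ^ 2 / η ≤ l := hK.trans (by exact_mod_cast hlK)
  have hb1 : 1 ≤ b := by
    rcases Nat.eq_zero_or_pos b with h | h
    · subst h; simp at hXb; omega
    · exact h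
  have hNX : (X : ℝ) ≤ ((8 * b ^ 3 : ℕ) : ℝ) := by exact_mod_cast hXb
  have hlogN : Real.log X ≤ Real.log ((8 * b ^ 3 : ℕ) : ℝ) := Real.log_le_log hX0 hNX
  set LN : ℝ := Real.log ((8 * b ^ 3 : ℕ) : ℝ) with hLN
  have hLN1 : 1 ≤ LN := hlog1.trans hlogN
  have hJ0 : (0 : ℝ) < J := by exact_mod_cast hJ
  -- the weights
  have hwt : ∀ m ∈ Icc 1 l, |1 / LN - wt X (b + m)| ≤ 3 / Real.log X ^ 2 := by
    intro m hm
    rw [mem_Icc] at hm
    unfold wt
    set Y : ℝ := (X : ℝ) + ((b + m : ℕ) : ℝ) ^ 3 with hY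
    have hm3 : (0 : ℝ) ≤ ((b + m : ℕ) : ℝ) ^ 3 := by positivity
    have hYX : (X : ℝ) ≤ Y := by linarith
    have hY0 : 0 < Y := hX0.trans_le hYX
    have hLY : Real.log X ≤ Real.log Y := Real.log_le_log hX0 hYX
    have hb0 : (0 : ℝ) < b := by exact_mod_cast hb1
    have hmb : ((b + m : ℕ) : ℝ) ≤ 2 * b := by
      have : b + m ≤ 2 * b := by omega
      exact_mod_cast this
    have hbm : (b : ℝ) ≤ ((b + m : ℕ) : ℝ) := by
      have : b ≤ b + m := by omega
      exact_mod_cast this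
    have h8 : ((8 * b ^ 3 : ℕ) : ℝ) = 8 * (b : ℝ) ^ 3 := by push_cast; ring
    have hup : Y ≤ 2 * ((8 * b ^ 3 : ℕ) : ℝ) := by
      have h1 : ((b + m : ℕ) : ℝ) ^ 3 ≤ (2 * b) ^ 3 :=
        pow_le_pow_left₀ (by positivity) hmb 3
      have e : (2 * (b : ℝ)) ^ 3 = 8 * (b : ℝ) ^ 3 := by ring
      rw [e] at h1
      rw [hY]
      rw [h8] at hNX ⊢
      linarith
    have hlow : ((8 * b ^ 3 : ℕ) : ℝ) ≤ 8 * Y := by
      have h1 : (b : ℝ) ^ 3 ≤ ((b + m : ℕ) : ℝ) ^ 3 := pow_le_pow_left₀ hb0.le hbm 3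
      rw [h8, hY]
      linarith
    have hN0 : (0 : ℝ) < ((8 * b ^ 3 : ℕ) : ℝ) := hX0.trans_le hNX
    have hl1 : Real.log Y ≤ Real.log 2 + LN := by
      rw [hLN, ← Real.log_mul (by norm_num) hN0.ne']
      exact Real.log_le_log hY0 hup
    have hl2 : LN ≤ Real.log 8 + Real.log Y := by
      rw [hLN, ← Real.log_mul (by norm_num) hY0.ne']
      exact Real.log_le_log hN0 hlow
    have hlog2 : Real.log 2 ≤ 1 := by
      have := Real.log_two_lt_d9
      linarith
    have hlog8 : Real.log 8 ≤ 3 := by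
      rw [show (8 : ℝ) = 2 ^ 3 by norm_num, Real.log_pow]
      push_cast
      linarith
    have hLY1 : 1 ≤ Real.log Y := hlog1.trans hLY
    have hLN0 : 0 < LN := by linarith
    have hLY0 : 0 < Real.log Y := by linarith
    have e1 : 1 / LN - 1 / Real.log Y = (Real.log Y - LN) / (LN * Real.log Y) := by
      field_simp
    rw [e1, abs_div, abs_of_pos (mul_pos hLN0 hLY0)]
    apply div_le_div₀ (by norm_num) _ (by positivity) _
    · rw [abs_le]; constructor <;> linarith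
    · rw [sq]
      exact mul_le_mul hlogN hLY (by linarith) hLN0.le
  -- the count
  set A : ℝ := (((Icc 1 l).filter (fun m => ((b + m) ^ 3 + k).Coprime W)).card : ℝ) with hA
  have hAeq : A = (((Icc 1 (b + l)).filter (fun m => (m ^ 3 + k).Coprime W)).card : ℝ) -
      ((Icc 1 b).filter (fun m => (m ^ 3 + k).Coprime W)).card :=
    cpart_shift (fun m => (m ^ 3 + k).Coprime W) b l
  have hA2 : |A * (W / W.totient) - l * HL.S y k| ≤ 2 * (W : ℝ) ^ 2 := by
    have h1 := HL.crt y W (b + l) k hW1 hWp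
    have h2 := HL.crt y W b k hW1 hWp
    rw [hAeq]
    push_cast at h1
    rw [abs_le] at h1 h2 ⊢
    constructor
    · linarith [h1.1, h1.2, h2.1, h2.2]
    · linarith [h1.1, h1.2, h2.1, h2.2]
  have hsum : (∑ m ∈ Icc 1 l, cc W J ((8 * b ^ 3 : ℕ) : ℝ) ((b + m) ^ 3 + k)) / J =
      A * (W / W.totient) / LN := by
    unfold cc
    rw [← Finset.sum_filter, Finset.sum_const, nsmul_eq_mul]
    have hLN0 : LN ≠ 0 := by linarith
    rw [← hLN]
    field_simp
    rfl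
  have hfirst : |(∑ m ∈ Icc 1 l, cc W J ((8 * b ^ 3 : ℕ) : ℝ) ((b + m) ^ 3 + k)) / J -
      HL.S y k * (l * (1 / LN))| ≤ 2 * (W : ℝ) ^ 2 / Real.log X := by
    rw [hsum]
    have e : A * (W / W.totient) / LN - HL.S y k * (l * (1 / LN)) =
        (A * (W / W.totient) - l * HL.S y k) / LN := by ring
    rw [e, abs_div, abs_of_pos (by linarith : 0 < LN)]
    apply div_le_div₀ (by positivity) hA2 (by linarith) hlogN
  have hSle : HL.S y k ≤ W := cpart_S_le y W k hW1 hWp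
  have hS0 : 0 < HL.S y k := HL.S_pos y k
  have hsecond : |HL.S y k * (l * (1 / LN)) - HL.S y k * ∑ m ∈ Icc 1 l, wt X (b + m)| ≤
      W * (l * (3 / Real.log X ^ 2)) := by
    rw [← mul_sub, abs_mul, abs_of_pos hS0]
    apply mul_le_mul hSle _ (abs_nonneg _) hW0.le
    have e : (l : ℝ) * (1 / LN) - ∑ m ∈ Icc 1 l, wt X (b + m) =
        ∑ m ∈ Icc 1 l, (1 / LN - wt X (b + m)) := by
      rw [Finset.sum_sub_distrib, Finset.sum_const, Nat.card_Icc, nsmul_eq_mul]
      simp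
    rw [e]
    calc |∑ m ∈ Icc 1 l, (1 / LN - wt X (b + m))| ≤
          ∑ m ∈ Icc 1 l, |1 / LN - wt X (b + m)| := Finset.abs_sum_le_sum_abs _ _
      _ ≤ ∑ _m ∈ Icc 1 l, 3 / Real.log X ^ 2 := Finset.sum_le_sum hwt
      _ = l * (3 / Real.log X ^ 2) := by
          rw [Finset.sum_const, Nat.card_Icc, nsmul_eq_mul]
          simp
  have hlog0 : 0 < Real.log X := by linarith
  have h1 : 2 * (W : ℝ) ^ 2 / Real.log X ≤ η / 2 * (l / Real.log X) := by
    rw [← mul_div_assoc]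
    apply div_le_div_of_nonneg_right _ hlog0.le
    rw [div_le_iff₀ hη0] at hlK'
    linarith
  have h2 : W * (l * (3 / Real.log X ^ 2)) ≤ η / 2 * (l / Real.log X) := by
    have h3 : 3 * W / Real.log X ≤ η / 2 := by
      rw [div_le_iff₀ hlog0]
      have h4 : 6 * W / η ≤ Real.log X := by linarith
      rw [div_le_iff₀ hη0] at h4
      linarith
    have e : W * (l * (3 / Real.log X ^ 2)) = 3 * W / Real.log X * (l / Real.log X) := by
      field_simp
    rw [e]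
    exact mul_le_mul_of_nonneg_right h3 (by positivity)
  calc |(∑ m ∈ Icc 1 l, cc W J ((8 * b ^ 3 : ℕ) : ℝ) ((b + m) ^ 3 + k)) / J -
      HL.S y k * ∑ m ∈ Icc 1 l, wt X (b + m)| ≤
      |(∑ m ∈ Icc 1 l, cc W J ((8 * b ^ 3 : ℕ) : ℝ) ((b + m) ^ 3 + k)) / J -
        HL.S y k * (l * (1 / LN))| +
      |HL.S y k * (l * (1 / LN)) - HL.S y k * ∑ m ∈ Icc 1 l, wt X (b + m)| := abs_sub_le _ _ _
    _ ≤ η / 2 * (l / Real.log X) + η / 2 * (l / Real.log X) :=
        add_le_add (hfirst.trans h1) (hsecond.trans h2)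
    _ = η * (l / Real.log X) := by ring

theorem cpart (y : ℕ) (hy : 1 ≤ y) : ∃ X0 : ℕ, ∀ X b l J k : ℕ, X0 ≤ X → X ≤ 8 * b ^ 3 →
    b ≤ 4 * l → l ≤ b → 1 ≤ J →
    |(∑ m ∈ Icc 1 l, cc ((Icc 1 y).lcm id) J ((8 * b ^ 3 : ℕ) : ℝ) ((b + m) ^ 3 + k)) / J -
      HL.S y k * ∑ m ∈ Icc 1 l, wt X (b + m)| ≤ (y : ℝ) ^ (-(1 : ℝ) / 48) * (l / Real.log X) := by
  have hy0 : (0 : ℝ) < y := by exact_mod_cast hy
  exact cpart_aux y _ _ (Real.rpow_pos_of_pos hy0 _) (HL.fin_lcm_pos y)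
    (fun p hp => HL.fin_lcm_prime y p hp)

end Pool.Agent.H43.LR
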