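import Pool.Agent.H43.LR.Base

/-!
# [H43 LR DPART] Primes minus local averages over `(b, b+l]`

PROOF. Put `μ = (θ κ + 1 - 2θ)/2`; `θ κ < μ < 1 - 2θ <= 1/3` and `μ > 0`. Let `K` be the constant of
`final_avg_b μ`. Given `y`, `W = lcm(1..y)` (`HL.fin_lcm_pos`: `1 <= W`), `Q = y`. Let `X` be large,
`lam = ⌈X^μ⌉`, `N = 8 b^3`, `J = ⌊N^κ⌋` (`>= 1`). Note `X^(1/3)/2 <= b <= X^θ`, so `N <= 8 X^(3θ)` and
`N^κ <= 8 X^(3θκ)`.
Claim: for `b' >= b`, `b' + l' <= b + l` (`<= X^θ`) and `lam <= l' <= 2 lam` the hypotheses of `final_avg_b μ`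
hold with `b := b'`, `M := l'`: `X^μ <= l'`; `(b'+l')^3 - b'^3 <= 3 l' (b'+l')^2 <= 6 lam X^(2θ) <= X` because
`μ + 2θ < 1`; `l' <= 2 lam <= b <= b'^3` because `μ < 1/3`; every `q <= y` divides `W` (`Finset.dvd_lcm`);
`W J y^2 <= W y^2 8 X^(3θκ) <= X^(3μ) <= l'^3` because `3θκ < 3μ`.
So `nrm X (Dd b' l' J W) <= sqrt (K y^(-1/24) X (l'/log X)^2) = sqrt (K y^(-1/24) X) * (l'/log X)`
(`pb` is literally the cardinality in `final_avg_b`).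
Now `add1` with `Φ b' l' = nrm X (Dd b' l' J W)` (triangle inequality: `nrm_add`, `Dd_add`, `nrm_congr`),
`b0 = b`, `T = b + l`, `c = sqrt (K y^(-1/24) X) / log X` gives the claim for `(b, l)`; `lam <= l` since
`l >= b/4 >= X^(1/3)/8`.
If `J = 0` cannot be excluded easily: `N >= X >= 1` gives `N^κ >= 1`, so `J >= 1`.
-/

namespace Pool.Agent.H43.LR

open Finset

theorem dpart_ev (C a b : ℝ) (h : a < b) : ∃ X0 : ℕ, ∀ X : ℕ, X0 ≤ X →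
    C * (X : ℝ) ^ a ≤ (X : ℝ) ^ b := by
  have h1 : Filter.Tendsto (fun x : ℝ => x ^ (b - a)) Filter.atTop Filter.atTop :=
    tendsto_rpow_atTop (by linarith)
  obtain ⟨x0, hx0⟩ := Filter.eventually_atTop.1
    ((h1.eventually_ge_atTop C).and (Filter.eventually_gt_atTop (0 : ℝ)))
  refine ⟨⌈x0⌉₊, fun X hX => ?_⟩
  obtain ⟨h2, h3⟩ := hx0 (X : ℝ) ((Nat.le_ceil x0).trans (by exact_mod_cast hX))
  have h4 : (X : ℝ) ^ b = (X : ℝ) ^ (b - a) * (X : ℝ) ^ a := by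
    rw [← Real.rpow_add h3]
    congr 1
    ring
  rw [h4]
  exact mul_le_mul_of_nonneg_right h2 (Real.rpow_nonneg h3.le _)

theorem dpart (κ θ : ℝ) (hκ : 0 < κ) (hκ1 : κ < 1) (hθ : 1 / 3 ≤ θ) (h : θ * (2 + κ) < 1) :
    ∃ K : ℝ, 0 < K ∧ ∀ y : ℕ, 1 ≤ y → ∃ X0 : ℕ, ∀ X b l : ℕ, X0 ≤ X → X ≤ 8 * b ^ 3 →
    ((b + l : ℕ) : ℝ) ≤ (X : ℝ) ^ θ → b ≤ 4 * l → l ≤ b →
    nrm X (Dd b l ⌊((8 * b ^ 3 : ℕ) : ℝ) ^ κ⌋₊ ((Icc 1 y).lcm id)) ≤
      Real.sqrt (K * (y : ℝ) ^ (-(1 : ℝ) / 24) * X) * (l / Real.log X) := by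
  obtain ⟨μ, hμ⟩ : ∃ μ : ℝ, μ = (θ * κ + 1 - 2 * θ) / 2 := ⟨_, rfl⟩
  have hθ0 : 0 < θ := by linarith
  have hθκ : 0 < θ * κ := mul_pos hθ0 hκ
  have h1 : θ * κ < 1 - 2 * θ := by nlinarith
  have hμ1 : θ * κ < μ := by rw [hμ]; linarith
  have hμ2 : μ < 1 - 2 * θ := by rw [hμ]; linarith
  have hμ0 : 0 < μ := by linarith
  have hμ3 : μ < 1 / 3 := by linarith
  obtain ⟨K, hK, hfin⟩ := final_avg_b μ hμ0
  refine ⟨K, hK, fun y hy => ?_⟩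
  obtain ⟨W, hW⟩ : ∃ W : ℕ, W = (Icc 1 y).lcm id := ⟨_, rfl⟩
  have hW1 : 1 ≤ W := by rw [hW]; exact HL.fin_lcm_pos y
  rw [← hW]
  obtain ⟨Xa, hXa⟩ := dpart_ev 12 (μ + 2 * θ) 1 (by linarith)
  obtain ⟨Xb, hXb⟩ := dpart_ev 16 μ (1 / 3) hμ3
  obtain ⟨Xc, hXc⟩ := dpart_ev (8 * W * (y : ℝ) ^ 2) (3 * (θ * κ)) (3 * μ) (by linarith)
  refine ⟨max 2 (max Xa (max Xb Xc)), fun X b l hX hXb8 hbl hb4 hlb => ?_⟩
  have hX2 : 2 ≤ X := (le_max_left _ _).trans hX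
  have hXa' := hXa X (((le_max_left _ _).trans (le_max_right _ _)).trans hX)
  have hXb' := hXb X (((le_max_left _ _).trans ((le_max_right _ _).trans (le_max_right _ _))).trans
    hX)
  have hXc' := hXc X (((le_max_right _ _).trans ((le_max_right _ _).trans
    (le_max_right _ _))).trans hX)
  rw [Real.rpow_one] at hXa'
  have hXR : (2 : ℝ) ≤ X := by exact_mod_cast hX2
  have hX0 : (0 : ℝ) < X := by linarith
  have hX1 : (1 : ℝ) ≤ X := by linarith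
  have hXμ1 : 1 ≤ (X : ℝ) ^ μ := Real.one_le_rpow hX1 hμ0.le
  -- size of b
  have hb2 : (X : ℝ) ^ (1 / 3 : ℝ) ≤ 2 * b := by
    have e1 : (X : ℝ) ≤ (2 * (b : ℝ)) ^ (3 : ℕ) := by
      have : ((X : ℕ) : ℝ) ≤ ((8 * b ^ 3 : ℕ) : ℝ) := by exact_mod_cast hXb8
      push_cast at this
      linarith [this, (by ring : (2 * (b : ℝ)) ^ 3 = 8 * (b : ℝ) ^ 3)]
    have e2 : (0 : ℝ) ≤ 2 * b := by positivity
    calc (X : ℝ) ^ (1 / 3 : ℝ) ≤ ((2 * (b : ℝ)) ^ (3 : ℕ)) ^ (1 / 3 : ℝ) :=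
          Real.rpow_le_rpow hX0.le e1 (by norm_num)
      _ = 2 * b := by
          rw [← Real.rpow_natCast, ← Real.rpow_mul e2]
          norm_num
  obtain ⟨lam, hlam⟩ : ∃ lam : ℕ, lam = ⌈(X : ℝ) ^ μ⌉₊ := ⟨_, rfl⟩
  have hlam1 : (X : ℝ) ^ μ ≤ lam := by rw [hlam]; exact Nat.le_ceil _
  have hlam2 : (lam : ℝ) ≤ 2 * (X : ℝ) ^ μ := by
    have : (lam : ℝ) < (X : ℝ) ^ μ + 1 := by
      rw [hlam]
      exact Nat.ceil_lt_add_one (by linarith)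
    linarith
  have hlampos : 1 ≤ lam := by
    have : (1 : ℝ) ≤ lam := hXμ1.trans hlam1
    exact_mod_cast this
  -- 2 lam ≤ b and lam ≤ l
  have h2lam : 2 * lam ≤ b := by
    have : (2 * (lam : ℝ)) ≤ b := by linarith
    exact_mod_cast this
  have hlaml : lam ≤ l := by
    have h5 : (b : ℝ) ≤ 4 * l := by exact_mod_cast hb4
    have : (lam : ℝ) ≤ l := by linarith
    exact_mod_cast this
  have hb1 : 1 ≤ b := by omega
  have hbR : (1 : ℝ) ≤ b := by exact_mod_cast hb1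
  have hbθ : (b : ℝ) ≤ (X : ℝ) ^ θ := by
    refine le_trans ?_ hbl
    exact_mod_cast Nat.le_add_right b l
  obtain ⟨J, hJ⟩ : ∃ J : ℕ, J = ⌊((8 * b ^ 3 : ℕ) : ℝ) ^ κ⌋₊ := ⟨_, rfl⟩
  have hN1 : (1 : ℝ) ≤ ((8 * b ^ 3 : ℕ) : ℝ) := by
    have : 1 ≤ 8 * b ^ 3 := by
      have : 1 ≤ b ^ 3 := Nat.one_le_pow _ _ hb1
      omega
    exact_mod_cast this
  have hJ1 : 1 ≤ J := by
    rw [hJ, Nat.one_le_floor_iff]
    exact Real.one_le_rpow hN1 hκ.le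
  have hJ2 : (J : ℝ) ≤ 8 * (X : ℝ) ^ (3 * (θ * κ)) := by
    have e1 : (J : ℝ) ≤ ((8 * b ^ 3 : ℕ) : ℝ) ^ κ := by
      rw [hJ]
      exact Nat.floor_le (by positivity)
    have e2 : ((8 * b ^ 3 : ℕ) : ℝ) ≤ 8 * (X : ℝ) ^ (3 * θ) := by
      push_cast
      have e3 : (b : ℝ) ^ 3 ≤ ((X : ℝ) ^ θ) ^ 3 := pow_le_pow_left₀ (by positivity) hbθ 3
      have e4 : ((X : ℝ) ^ θ) ^ 3 = (X : ℝ) ^ (3 * θ) := by
        rw [← Real.rpow_natCast, ← Real.rpow_mul hX0.le]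
        congr 1
        push_cast
        ring
      rw [e4] at e3
      linarith
    refine e1.trans ?_
    calc ((8 * b ^ 3 : ℕ) : ℝ) ^ κ ≤ (8 * (X : ℝ) ^ (3 * θ)) ^ κ :=
          Real.rpow_le_rpow (by positivity) e2 hκ.le
      _ = 8 ^ κ * ((X : ℝ) ^ (3 * θ)) ^ κ := Real.mul_rpow (by norm_num) (by positivity)
      _ ≤ 8 ^ (1 : ℝ) * ((X : ℝ) ^ (3 * θ)) ^ κ := by
          refine mul_le_mul_of_nonneg_right ?_ (by positivity)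
          exact Real.rpow_le_rpow_of_exponent_le (by norm_num) hκ1.le
      _ = 8 * (X : ℝ) ^ (3 * (θ * κ)) := by
          rw [Real.rpow_one, ← Real.rpow_mul hX0.le]
          congr 2
          ring
  rw [← hJ]
  have hlog : 0 < Real.log X := Real.log_pos (by linarith)
  obtain ⟨c, hc⟩ : ∃ c : ℝ, c = Real.sqrt (K * (y : ℝ) ^ (-(1 : ℝ) / 24) * X) / Real.log X :=
    ⟨_, rfl⟩
  have hgoal : ∀ l' : ℕ, Real.sqrt (K * (y : ℝ) ^ (-(1 : ℝ) / 24) * X) * (l' / Real.log X) =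
      c * l' := by
    intro l'
    rw [hc]
    ring
  rw [hgoal]
  refine add1 (fun b l => nrm X (Dd b l J W)) ?_ b (b + l) lam c hlampos ?_ l b le_rfl le_rfl hlaml
  · intro b l l'
    calc nrm X (Dd b (l + l') J W) = nrm X (fun k => Dd b l J W k + Dd (b + l) l' J W k) :=
          nrm_congr X _ _ fun k _ => Dd_add b l l' J W k
      _ ≤ _ := nrm_add X _ _
  · intro b' l' hb' hbl' hl1 hl2
    have hl'1 : (X : ℝ) ^ μ ≤ l' := hlam1.trans (by exact_mod_cast hl1)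
    have hl'2 : (l' : ℝ) ≤ 4 * (X : ℝ) ^ μ := by
      have : (l' : ℝ) ≤ 2 * lam := by exact_mod_cast hl2
      linarith
    have hbl'' : ((b' : ℝ) + l') ≤ (X : ℝ) ^ θ := by
      refine le_trans ?_ hbl
      exact_mod_cast hbl'
    have hcube : (b' + l') ^ 3 ≤ b' ^ 3 + X := by
      have e1 : ((b' : ℝ) + l') ^ 3 ≤ (b' : ℝ) ^ 3 + 3 * l' * ((b' : ℝ) + l') ^ 2 := by
        have hb0 : (0 : ℝ) ≤ b' := Nat.cast_nonneg _
        have hl0 : (0 : ℝ) ≤ l' := Nat.cast_nonneg _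
        have : (b' : ℝ) ^ 3 + 3 * l' * ((b' : ℝ) + l') ^ 2 - ((b' : ℝ) + l') ^ 3 =
            3 * b' * l' ^ 2 + 2 * (l' : ℝ) ^ 3 := by ring
        have h2 : 0 ≤ 3 * (b' : ℝ) * l' ^ 2 + 2 * (l' : ℝ) ^ 3 := by positivity
        linarith
      have e2 : ((b' : ℝ) + l') ^ 2 ≤ (X : ℝ) ^ (2 * θ) := by
        calc ((b' : ℝ) + l') ^ 2 ≤ ((X : ℝ) ^ θ) ^ 2 := pow_le_pow_left₀ (by positivity) hbl'' 2
          _ = (X : ℝ) ^ (2 * θ) := by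
              rw [← Real.rpow_natCast, ← Real.rpow_mul hX0.le]
              congr 1
              push_cast
              ring
      have e3 : 3 * (l' : ℝ) * ((b' : ℝ) + l') ^ 2 ≤ X := by
        calc 3 * (l' : ℝ) * ((b' : ℝ) + l') ^ 2 ≤ 3 * (4 * (X : ℝ) ^ μ) * (X : ℝ) ^ (2 * θ) := by
              gcongr
          _ = 12 * (X : ℝ) ^ (μ + 2 * θ) := by rw [Real.rpow_add hX0]; ring
          _ ≤ X := hXa'
      have e4 : ((b' : ℝ) + l') ^ 3 ≤ (b' : ℝ) ^ 3 + X := by linarith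
      exact_mod_cast e4
    have hMb : l' ≤ b' ^ 3 := by
      have e1 : l' ≤ b' := by omega
      exact e1.trans (Nat.le_self_pow (by norm_num) _)
    have hdiv : ∀ q : ℕ, 1 ≤ q → q ≤ y → q ∣ W := by
      intro q hq1 hq2
      rw [hW]
      exact Finset.dvd_lcm (f := id) (mem_Icc.2 ⟨hq1, hq2⟩)
    have hWJ : W * J * y ^ 2 ≤ l' ^ 3 := by
      have e1 : (W : ℝ) * J * (y : ℝ) ^ 2 ≤ (l' : ℝ) ^ 3 := by
        calc (W : ℝ) * J * (y : ℝ) ^ 2 ≤ W * (8 * (X : ℝ) ^ (3 * (θ * κ))) * (y : ℝ) ^ 2 := by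
              gcongr
          _ = 8 * W * (y : ℝ) ^ 2 * (X : ℝ) ^ (3 * (θ * κ)) := by ring
          _ ≤ (X : ℝ) ^ (3 * μ) := hXc'
          _ = ((X : ℝ) ^ μ) ^ 3 := by
              rw [← Real.rpow_natCast, ← Real.rpow_mul hX0.le]
              congr 1
              push_cast
              ring
          _ ≤ (l' : ℝ) ^ 3 := pow_le_pow_left₀ (by positivity) hl'1 3
      exact_mod_cast e1
    have hmain := hfin X b' l' y W J hX2 hl'1 hcube hMb hy hJ1 hdiv hWJ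
    have h2 := nrm_le_of_sq X (Dd b' l' J W) _ hmain
    refine h2.trans (le_of_eq ?_)
    rw [Real.sqrt_mul (by positivity), Real.sqrt_sq (by positivity), hgoal]

end Pool.Agent.H43.LR
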