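import Pool.Agent.H43.LR.Base

/-!
# [H43 LR FIRST] The initial range `m <= M`, `M^3 <= X`

PROOF. `HL.final θ hθ` gives `C` (replace it by `C' = |C| + 1 > 0`), for `X >= X0(y)`:
`∑_k (cnt - (M/log X) S_y(k))^2 <= C y^(-1/24) X (M/log X)^2`; here `cb 0 M k` is the count (`0 + m = m`).
`F y X 0 M k = (cnt - (M/log X) S_y(k)) + S_y(k) (M/log X - ∑_{m<=M} wt X m)`. For `1 <= m <= M`:
`X <= X + m^3 <= 2X`, so `0 <= 1/log X - 1/log(X+m^3) <= log 2/(log X)^2`, and `0 <= S_y(k) <= B(y)` for a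
constant (each factor is at most `p/(p-1)`, or `<= 2`; so `S_y(k) <= 2^y`, by `Finset.prod_le_pow_card` or
similar; `HL.S_pos`). So the second part is at most `B(y) M log 2/(log X)^2 <= y^(-1/48) M/log X` for
`X >= X0(y)`. By `nrm_add`, `nrm_le_of_bound`: `nrm <= sqrt (C' y^(-1/24) X) (M/log X) + sqrt X y^(-1/48) M/log X`,
which is `(sqrt C' + 1) sqrt (y^(-1/24) X) (M/log X) = sqrt ((sqrt C' + 1)^2 y^(-1/24) X) (M/log X)`.
-/

namespace Pool.Agent.H43.LR

open Finset

theorem first_S_le (y k : ℕ) : HL.S y k ≤ 2 ^ y := by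
  unfold HL.S
  have h1 : ∏ p ∈ (Icc 1 y).filter Nat.Prime, (1 - (HL.nu p k : ℝ) / p) / (1 - 1 / (p : ℝ)) ≤
      ∏ _p ∈ (Icc 1 y).filter Nat.Prime, (2 : ℝ) := by
    apply Finset.prod_le_prod
    · intro p hp
      have hpp := (mem_filter.1 hp).2
      have := HL.gi_pos p k hpp
      unfold HL.gi at this
      have h2 : (1 - (HL.nu p k : ℝ) / p) / (1 - 1 / (p : ℝ)) =
          ((1 - 1 / (p : ℝ)) / (1 - (HL.nu p k : ℝ) / p))⁻¹ := by
        rw [inv_div]
      rw [h2]
      exact (inv_pos.2 this).le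
    · intro p hp
      have hpp := (mem_filter.1 hp).2
      have hp2 : (2 : ℝ) ≤ p := by exact_mod_cast hpp.two_le
      have hd : (1 : ℝ) / 2 ≤ 1 - 1 / (p : ℝ) := by
        have : 1 / (p : ℝ) ≤ 1 / 2 := one_div_le_one_div_of_le (by norm_num) hp2
        linarith
      rw [div_le_iff₀ (by linarith)]
      have : 0 ≤ (HL.nu p k : ℝ) / p := by positivity
      linarith
  refine h1.trans ?_
  rw [prod_const]
  refine pow_le_pow_right₀ (by norm_num) ?_
  calc ((Icc 1 y).filter Nat.Prime).card ≤ (Icc 1 y).card := card_filter_le _ _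
    _ = y := by simp

theorem first_wt (X M : ℕ) (hX : 2 ≤ X) (hM : M ^ 3 ≤ X) :
    |(M : ℝ) / Real.log X - ∑ m ∈ Icc 1 M, wt X m| ≤ M * (Real.log 2 / Real.log X ^ 2) := by
  have hXr : (2 : ℝ) ≤ X := by exact_mod_cast hX
  have hlog : 0 < Real.log X := Real.log_pos (by linarith)
  have h1 : (M : ℝ) / Real.log X - ∑ m ∈ Icc 1 M, wt X m =
      ∑ m ∈ Icc 1 M, (1 / Real.log X - wt X m) := by
    rw [sum_sub_distrib, sum_const, Nat.card_Icc, Nat.add_sub_cancel, nsmul_eq_mul, mul_one_div]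
  rw [h1]
  calc |∑ m ∈ Icc 1 M, (1 / Real.log X - wt X m)| ≤
        ∑ m ∈ Icc 1 M, |1 / Real.log X - wt X m| := abs_sum_le_sum_abs _ _
    _ ≤ ∑ _m ∈ Icc 1 M, (Real.log 2 / Real.log X ^ 2) := by
        apply sum_le_sum
        intro m hm
        rw [mem_Icc] at hm
        unfold wt
        have hm3 : (m : ℝ) ^ 3 ≤ X := by
          have : m ^ 3 ≤ M ^ 3 := Nat.pow_le_pow_left hm.2 3
          exact_mod_cast this.trans hM
        have hm0 : (0 : ℝ) ≤ (m : ℝ) ^ 3 := by positivity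
        have hL1 : Real.log X ≤ Real.log ((X : ℝ) + (m : ℝ) ^ 3) :=
          Real.log_le_log (by linarith) (by linarith)
        have hL2 : Real.log ((X : ℝ) + (m : ℝ) ^ 3) ≤ Real.log 2 + Real.log X := by
          rw [← Real.log_mul (by norm_num) (by linarith)]
          exact Real.log_le_log (by linarith) (by linarith)
        set L := Real.log X
        set L' := Real.log ((X : ℝ) + (m : ℝ) ^ 3)
        have hL' : 0 < L' := by linarith
        have e : 1 / L - 1 / L' = (L' - L) / (L * L') := by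
          field_simp
        rw [e, abs_of_nonneg (by apply div_nonneg (by linarith) (by positivity))]
        rw [div_le_div_iff₀ (by positivity) (by positivity)]
        have hlog2 : 0 ≤ Real.log 2 := Real.log_nonneg (by norm_num)
        calc (L' - L) * L ^ 2 ≤ Real.log 2 * L ^ 2 :=
              mul_le_mul_of_nonneg_right (by linarith) (by positivity)
          _ = Real.log 2 * (L * L) := by ring
          _ ≤ Real.log 2 * (L * L') := by
              apply mul_le_mul_of_nonneg_left _ hlog2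
              exact mul_le_mul_of_nonneg_left hL1 hlog.le
    _ = M * (Real.log 2 / Real.log X ^ 2) := by
        rw [sum_const, Nat.card_Icc, Nat.add_sub_cancel, nsmul_eq_mul]

theorem first (θ : ℝ) (hθ : 1 / 9 < θ) : ∃ C : ℝ, 0 < C ∧ ∀ y : ℕ, 1 ≤ y → ∃ X0 : ℕ, 2 ≤ X0 ∧
    ∀ X M : ℕ, X0 ≤ X → (X : ℝ) ^ θ ≤ M → M ^ 3 ≤ X →
    nrm X (F y X 0 M) ≤ Real.sqrt (C * (y : ℝ) ^ (-(1 : ℝ) / 24) * X) * (M / Real.log X) := by
  obtain ⟨C0, hC0⟩ := HL.final θ hθ
  set C' : ℝ := |C0| + 1 with hC'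
  have hC'pos : 0 < C' := by positivity
  refine ⟨(Real.sqrt C' + 1) ^ 2, by positivity, ?_⟩
  intro y hy
  obtain ⟨X0, hX0, hmain⟩ := hC0 y hy
  have hy0 : (0 : ℝ) < y := by exact_mod_cast hy
  set q : ℝ := (y : ℝ) ^ (-(1 : ℝ) / 48) with hq
  have hq0 : 0 < q := Real.rpow_pos_of_pos hy0 _
  have hqq : (y : ℝ) ^ (-(1 : ℝ) / 24) = q ^ 2 := by
    rw [hq, ← Real.rpow_natCast, ← Real.rpow_mul hy0.le]
    norm_num
  refine ⟨max X0 ⌈Real.exp (2 ^ y * Real.log 2 / q)⌉₊, le_trans hX0 (le_max_left _ _), ?_⟩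
  intro X M hX hM1 hM2
  have hX1 : X0 ≤ X := le_trans (le_max_left _ _) hX
  have hX2 : Real.exp (2 ^ y * Real.log 2 / q) ≤ X := by
    have : ⌈Real.exp (2 ^ y * Real.log 2 / q)⌉₊ ≤ X := le_trans (le_max_right _ _) hX
    exact (Nat.le_ceil _).trans (by exact_mod_cast this)
  have hX3 : 2 ≤ X := le_trans hX0 hX1
  have hXr : (2 : ℝ) ≤ X := by exact_mod_cast hX3
  have hlog : 0 < Real.log X := Real.log_pos (by linarith)
  have hlogX : 2 ^ y * Real.log 2 / q ≤ Real.log X := by
    have := Real.log_le_log (Real.exp_pos _) hX2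
    rwa [Real.log_exp] at this
  have hsum := hmain X M hX1 hM1 hM2
  rw [hqq] at hsum ⊢
  set w : ℝ := (M : ℝ) / Real.log X with hw
  have hw0 : 0 ≤ w := by positivity
  set f : ℕ → ℝ := fun k => ((((Icc 1 M).filter (fun m => (m ^ 3 + k).Prime)).card : ℝ) -
        w * HL.S y k) with hf
  set g : ℕ → ℝ := fun k => HL.S y k * (w - ∑ m ∈ Icc 1 M, wt X m) with hg
  have hF : nrm X (F y X 0 M) = nrm X (fun k => f k + g k) := by
    apply nrm_congr
    intro k _
    unfold F cb
    simp only [zero_add, hf, hg]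
    ring
  rw [hF]
  refine (nrm_add X f g).trans ?_
  have h1 : nrm X f ≤ Real.sqrt C' * (q * Real.sqrt X) * w := by
    have h2 : ∑ k ∈ Icc 1 X, f k ^ 2 ≤ C' * (q ^ 2 * X) * w ^ 2 := by
      refine hsum.trans ?_
      have : C0 ≤ C' := by
        have := le_abs_self C0
        linarith
      calc C0 * q ^ 2 * X * w ^ 2 = C0 * (q ^ 2 * X * w ^ 2) := by ring
        _ ≤ C' * (q ^ 2 * X * w ^ 2) := mul_le_mul_of_nonneg_right this (by positivity)
        _ = C' * (q ^ 2 * X) * w ^ 2 := by ring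
    refine (nrm_le_of_sq X f _ h2).trans (le_of_eq ?_)
    rw [Real.sqrt_mul (by positivity), Real.sqrt_mul hC'pos.le, Real.sqrt_mul (by positivity),
      Real.sqrt_sq hq0.le, Real.sqrt_sq hw0]
  have h3 : nrm X g ≤ Real.sqrt X * (q * w) := by
    apply nrm_le_of_bound
    · positivity
    · intro k _
      have hS := first_S_le y k
      have hS0 := HL.S_pos y k
      have hW := first_wt X M hX3 hM2
      simp only [hg]
      rw [abs_mul, abs_of_pos hS0]
      have hlog2 : 0 ≤ Real.log 2 := Real.log_nonneg (by norm_num)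
      calc HL.S y k * |w - ∑ m ∈ Icc 1 M, wt X m| ≤
            2 ^ y * (M * (Real.log 2 / Real.log X ^ 2)) :=
            mul_le_mul hS hW (abs_nonneg _) (by positivity)
        _ = (2 ^ y * Real.log 2 / Real.log X) * w := by
            rw [hw]
            field_simp
        _ ≤ q * w := by
            apply mul_le_mul_of_nonneg_right _ hw0
            rw [div_le_iff₀ hq0] at hlogX
            rw [div_le_iff₀ hlog]
            linarith
  calc nrm X f + nrm X g ≤ Real.sqrt C' * (q * Real.sqrt X) * w + Real.sqrt X * (q * w) :=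
        add_le_add h1 h3
    _ = (Real.sqrt C' + 1) * (q * Real.sqrt X) * w := by ring
    _ = Real.sqrt ((Real.sqrt C' + 1) ^ 2 * q ^ 2 * X) * w := by
        rw [Real.sqrt_mul (by positivity), Real.sqrt_mul (by positivity), Real.sqrt_sq (by positivity),
          Real.sqrt_sq hq0.le]
        ring

end Pool.Agent.H43.LR
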