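import Pool.Agent.H43.LR.Base

/-!
# [H43 LR GP] Each n is rarely of the form (b+m)^3+k

`mult`: the `m` in `[1,l]` with `(b+m)^3 < n <= (b+m)^3 + X`. For two of them, `m < m'`,
`3 b^2 (m'-m) <= (b+m')^3 - (b+m)^3 < X`. So if the set is nonempty with least element `m0` and greatest `m1`,
its cardinality is at most `m1 - m0 + 1 <= X/(3b^2) + 1 <= X/(3b^2) + X/b^2 <= 2X/b^2` (as `b^2 <= X`).

`gp`: Cauchy-Schwarz over `m` (`sq_sum_le_card_mul_sum_sq`): the left side is at most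
`l * ∑_{m<=l} ∑_{k in [1,X]} g((b+m)^3+k)^2`; for fixed `m` the inner sum is the sum of `g n ^ 2` over the
`n` with `(b+m)^3 < n <= (b+m)^3 + X`, all of which lie in `[1, 16 b^3]` (`(b+m)^3 <= 8 b^3`, `X <= 8 b^3`);
interchange and use `mult`.
-/

namespace Pool.Agent.H43.LR

open Finset

theorem mult (b l X n : ℕ) (hb1 : 1 ≤ b) (hb2 : b ^ 2 ≤ X) :
    ((((Icc 1 l).filter (fun m => (b + m) ^ 3 < n ∧ n ≤ (b + m) ^ 3 + X)).card : ℕ) : ℝ) ≤
      2 * X / (b : ℝ) ^ 2 := by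
  have hbpos : (0 : ℝ) < (b : ℝ) ^ 2 := by
    have : (0 : ℝ) < b := by exact_mod_cast hb1
    positivity
  rw [le_div_iff₀ hbpos]
  set S := (Icc 1 l).filter (fun m => (b + m) ^ 3 < n ∧ n ≤ (b + m) ^ 3 + X) with hS
  rcases S.eq_empty_or_nonempty with he | hne
  · rw [he, card_empty]
    simp
  · have h0 := S.min'_mem hne
    have h1 := S.max'_mem hne
    have h01 : S.min' hne ≤ S.max' hne := S.min'_le _ h1
    set m0 := S.min' hne with hm0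
    set m1 := S.max' hne with hm1
    have hsub : S ⊆ Icc m0 m1 := fun m hm => mem_Icc.2 ⟨S.min'_le _ hm, S.le_max' _ hm⟩
    have hc : S.card ≤ m1 + 1 - m0 := by
      have := card_le_card hsub
      rwa [Nat.card_Icc] at this
    rw [hS, mem_filter] at h0 h1
    have h2 : (b + m1) ^ 3 < (b + m0) ^ 3 + X := lt_of_lt_of_le h1.2.1 h0.2.2
    obtain ⟨d, hd⟩ : ∃ d, m1 = m0 + d := ⟨m1 - m0, by omega⟩
    have h3 : (b + m0) ^ 3 + 3 * b ^ 2 * d ≤ (b + m1) ^ 3 := by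
      rw [hd]
      have e : (b + (m0 + d)) ^ 3 = (b + m0) ^ 3 + 3 * b ^ 2 * d + (6 * b * m0 * d
        + 3 * m0 ^ 2 * d + 3 * (b + m0) * d ^ 2 + d ^ 3) := by ring
      rw [e]
      exact Nat.le_add_right _ _
    have h4 : 3 * b ^ 2 * d ≤ X := by omega
    have h5 : S.card ≤ d + 1 := by omega
    have h6 : S.card * b ^ 2 ≤ 2 * X := by
      calc S.card * b ^ 2 ≤ (d + 1) * b ^ 2 := Nat.mul_le_mul_right _ h5
        _ = b ^ 2 * d + b ^ 2 := by ring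
        _ ≤ X + X := by
            apply Nat.add_le_add _ hb2
            have : b ^ 2 * d ≤ 3 * b ^ 2 * d := by
              have e : 3 * b ^ 2 * d = b ^ 2 * d + 2 * (b ^ 2 * d) := by ring
              rw [e]
              exact Nat.le_add_right _ _
            omega
        _ = 2 * X := by ring
    exact_mod_cast h6

theorem gp (g : ℕ → ℝ) (X b l : ℕ) (R : ℝ) (hb1 : 1 ≤ b) (hb2 : b ^ 2 ≤ X) (hb : X ≤ 8 * b ^ 3)
    (hl : l ≤ b) (hR : ∑ n ∈ Icc 1 (16 * b ^ 3), g n ^ 2 ≤ R) :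
    ∑ k ∈ Icc 1 X, (∑ m ∈ Icc 1 l, g ((b + m) ^ 3 + k)) ^ 2 ≤ l * (2 * X / (b : ℝ) ^ 2 * R) := by
  have h1 : ∀ k ∈ Icc 1 X, (∑ m ∈ Icc 1 l, g ((b + m) ^ 3 + k)) ^ 2 ≤
      l * ∑ m ∈ Icc 1 l, g ((b + m) ^ 3 + k) ^ 2 := by
    intro k _
    have h := sq_sum_le_card_mul_sum_sq (s := Icc 1 l) (f := fun m => g ((b + m) ^ 3 + k))
    rw [Nat.card_Icc, Nat.add_sub_cancel] at h
    exact h
  have h2 : ∀ m ∈ Icc 1 l, ∑ k ∈ Icc 1 X, g ((b + m) ^ 3 + k) ^ 2 =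
      ∑ n ∈ Icc 1 (16 * b ^ 3), if (b + m) ^ 3 < n ∧ n ≤ (b + m) ^ 3 + X then g n ^ 2 else 0 := by
    intro m hm
    rw [mem_Icc] at hm
    have hbm : (b + m) ^ 3 ≤ 8 * b ^ 3 := by
      calc (b + m) ^ 3 ≤ (2 * b) ^ 3 := Nat.pow_le_pow_left (by omega) 3
        _ = 8 * b ^ 3 := by ring
    rw [← sum_filter]
    refine sum_bij (fun k _ => (b + m) ^ 3 + k) ?_ ?_ ?_ ?_
    · intro k hk
      rw [mem_Icc] at hk
      rw [mem_filter, mem_Icc]
      refine ⟨⟨?_, ?_⟩, ?_, ?_⟩ <;> omega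
    · intro k _ k' _ h
      omega
    · intro n hn
      rw [mem_filter, mem_Icc] at hn
      exact ⟨n - (b + m) ^ 3, by rw [mem_Icc]; omega, by omega⟩
    · intro k _
      rfl
  calc ∑ k ∈ Icc 1 X, (∑ m ∈ Icc 1 l, g ((b + m) ^ 3 + k)) ^ 2
      ≤ ∑ k ∈ Icc 1 X, l * ∑ m ∈ Icc 1 l, g ((b + m) ^ 3 + k) ^ 2 := sum_le_sum h1
    _ = l * ∑ m ∈ Icc 1 l, ∑ k ∈ Icc 1 X, g ((b + m) ^ 3 + k) ^ 2 := by
        rw [← mul_sum, sum_comm]
    _ = l * ∑ m ∈ Icc 1 l, ∑ n ∈ Icc 1 (16 * b ^ 3),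
          (if (b + m) ^ 3 < n ∧ n ≤ (b + m) ^ 3 + X then g n ^ 2 else 0) := by
        rw [sum_congr rfl h2]
    _ = l * ∑ n ∈ Icc 1 (16 * b ^ 3),
          ((((Icc 1 l).filter (fun m => (b + m) ^ 3 < n ∧ n ≤ (b + m) ^ 3 + X)).card : ℕ) : ℝ) *
            g n ^ 2 := by
        rw [sum_comm]
        congr 1
        refine sum_congr rfl fun n _ => ?_
        rw [← sum_filter, sum_const, nsmul_eq_mul]
    _ ≤ l * ∑ n ∈ Icc 1 (16 * b ^ 3), (2 * X / (b : ℝ) ^ 2) * g n ^ 2 := by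
        apply mul_le_mul_of_nonneg_left _ (Nat.cast_nonneg l)
        refine sum_le_sum fun n _ => ?_
        exact mul_le_mul_of_nonneg_right (mult b l X n hb1 hb2) (sq_nonneg _)
    _ ≤ l * (2 * X / (b : ℝ) ^ 2 * R) := by
        apply mul_le_mul_of_nonneg_left _ (Nat.cast_nonneg l)
        rw [← mul_sum]
        apply mul_le_mul_of_nonneg_left hR
        positivity

end Pool.Agent.H43.LR
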