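import Pool.Agent.H43.LR.Gp

/-!
# [H43 LR GPART] The local averages are as predicted, in mean square

PROOF. `W = lcm(1..y) >= 1` (`HL.fin_lcm_pos`). Apply `hP W _ (y^(-1/24)) _` : `X0'`. For `X` large,
`X <= 8 b^3 = N` and so `N >= X0'`; with `J = ⌊N^κ⌋`, `g n = pc J W n - cc W J N n` the hypothesis `Pri κ` says
`∑_{n <= 16 b^3} g n ^ 2 <= y^(-1/24) N (J / log N)^2` (`2 N = 16 b^3`). `gp` (with `b^2 <= X`, which follows
from `b <= X^θ`, `θ < 1/2`) gives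
`∑_k (∑_m g((b+m)^3+k))^2 <= l (2X/b^2) y^(-1/24) 8 b^3 (J/log N)^2 = 16 y^(-1/24) X l b (J/log N)^2
 <= 64 y^(-1/24) X l^2 (J/log X)^2` (`b <= 4 l`, `log N >= log X > 0`).
Divide by `J^2` (`J >= 1` because `N >= 1`) and take roots (`nrm_le_of_sq`, `Real.sqrt_mul_self` etc.).
-/

namespace Pool.Agent.H43.LR

open Finset

theorem gpart (κ θ : ℝ) (hκ : 0 < κ) (hθ : θ < 1 / 2) (hP : Pri κ) (y : ℕ) (hy : 1 ≤ y) :
    ∃ X0 : ℕ, ∀ X b l : ℕ, X0 ≤ X → X ≤ 8 * b ^ 3 →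
    ((b + l : ℕ) : ℝ) ≤ (X : ℝ) ^ θ → b ≤ 4 * l → l ≤ b →
    nrm X (fun k => (∑ m ∈ Icc 1 l,
        ((pc ⌊((8 * b ^ 3 : ℕ) : ℝ) ^ κ⌋₊ ((Icc 1 y).lcm id) ((b + m) ^ 3 + k) : ℝ) -
          cc ((Icc 1 y).lcm id) ⌊((8 * b ^ 3 : ℕ) : ℝ) ^ κ⌋₊ ((8 * b ^ 3 : ℕ) : ℝ)
            ((b + m) ^ 3 + k))) / (⌊((8 * b ^ 3 : ℕ) : ℝ) ^ κ⌋₊ : ℝ)) ≤
      Real.sqrt (64 * (y : ℝ) ^ (-(1 : ℝ) / 24) * X) * (l / Real.log X) := by
  set W := (Icc 1 y).lcm id with hWdef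
  have hW : 1 ≤ W := HL.fin_lcm_pos y
  set η : ℝ := (y : ℝ) ^ (-(1 : ℝ) / 24) with hη
  have hy0 : (0 : ℝ) < y := by exact_mod_cast hy
  have hη0 : 0 < η := Real.rpow_pos_of_pos hy0 _
  obtain ⟨X0, hX0, hpri⟩ := hP W hW η hη0
  refine ⟨X0, fun X b l hX hXb hbl hb4 hlb => ?_⟩
  have hX2 : 2 ≤ X := hX0.trans hX
  have hX1R : (1 : ℝ) ≤ X := by
    have : (2 : ℝ) ≤ X := by exact_mod_cast hX2
    linarith
  have hb1 : 1 ≤ b := by
    rcases Nat.eq_zero_or_pos b with h0 | h0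
    · rw [h0] at hXb
      simp at hXb
      omega
    · exact h0
  have hb1R : (1 : ℝ) ≤ b := by exact_mod_cast hb1
  have hlR : (b : ℝ) ≤ 4 * l := by exact_mod_cast hb4
  have hl0 : (0 : ℝ) < l := by linarith
  have hb2 : b ^ 2 ≤ X := by
    have h1 : (b : ℝ) ≤ (X : ℝ) ^ (1 / 2 : ℝ) := by
      calc (b : ℝ) ≤ ((b + l : ℕ) : ℝ) := by exact_mod_cast Nat.le_add_right b l
        _ ≤ (X : ℝ) ^ θ := hbl
        _ ≤ (X : ℝ) ^ (1 / 2 : ℝ) := Real.rpow_le_rpow_of_exponent_le hX1R hθ.le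
    have h2 : (b : ℝ) ^ 2 ≤ ((X : ℝ) ^ (1 / 2 : ℝ)) ^ 2 := pow_le_pow_left₀ (by linarith) h1 2
    have h3 : ((X : ℝ) ^ (1 / 2 : ℝ)) ^ 2 = X := by
      rw [← Real.rpow_natCast, ← Real.rpow_mul (by linarith)]
      norm_num
    rw [h3] at h2
    exact_mod_cast h2
  set N : ℕ := 8 * b ^ 3 with hN
  have hN1 : (1 : ℝ) ≤ (N : ℝ) := hX1R.trans (by exact_mod_cast hXb)
  set J : ℕ := ⌊(N : ℝ) ^ κ⌋₊ with hJ
  have hJ1 : 1 ≤ J := by
    rw [hJ]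
    apply Nat.le_floor
    rw [Nat.cast_one]
    exact Real.one_le_rpow hN1 hκ.le
  have hJ0 : (0 : ℝ) < J := by exact_mod_cast hJ1
  have hlogX : 0 < Real.log X := Real.log_pos (by
    have : (2 : ℝ) ≤ X := by exact_mod_cast hX2
    linarith)
  have hlogN : Real.log X ≤ Real.log N := Real.log_le_log (by linarith) (by exact_mod_cast hXb)
  have hp := hpri N (hX.trans hXb)
  have hp' : ∑ n ∈ Icc 1 (16 * b ^ 3), ((pc J W n : ℝ) - cc W J (N : ℝ) n) ^ 2 ≤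
      η * N * (J / Real.log N) ^ 2 := by
    have e : 2 * N = 16 * b ^ 3 := by
      rw [hN]
      ring
    rw [← e]
    exact hp
  have hg := gp (fun n => (pc J W n : ℝ) - cc W J (N : ℝ) n) X b l _ hb1 hb2 hXb hlb hp'
  have hfin : ∑ k ∈ Icc 1 X, ((∑ m ∈ Icc 1 l, ((pc J W ((b + m) ^ 3 + k) : ℝ) -
      cc W J (N : ℝ) ((b + m) ^ 3 + k))) / (J : ℝ)) ^ 2 ≤
      64 * η * X * (l / Real.log X) ^ 2 := by
    have e1 : ∑ k ∈ Icc 1 X, ((∑ m ∈ Icc 1 l, ((pc J W ((b + m) ^ 3 + k) : ℝ) -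
        cc W J (N : ℝ) ((b + m) ^ 3 + k))) / (J : ℝ)) ^ 2 =
        (∑ k ∈ Icc 1 X, (∑ m ∈ Icc 1 l, ((pc J W ((b + m) ^ 3 + k) : ℝ) -
        cc W J (N : ℝ) ((b + m) ^ 3 + k))) ^ 2) / (J : ℝ) ^ 2 := by
      rw [Finset.sum_div]
      exact Finset.sum_congr rfl fun k _ => div_pow _ _ _
    rw [e1, div_le_iff₀ (by positivity)]
    refine hg.trans ?_
    have e2 : (l : ℝ) * (2 * X / (b : ℝ) ^ 2 * (η * N * (J / Real.log N) ^ 2)) =
        16 * η * X * (J : ℝ) ^ 2 * (l * b) / (Real.log N) ^ 2 := by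
      have hb0 : (b : ℝ) ≠ 0 := by linarith
      have hln : Real.log N ≠ 0 := by
        have := hlogX.trans_le hlogN
        exact this.ne'
      rw [hN]
      push_cast
      field_simp
      ring
    rw [e2]
    have e3 : 64 * η * X * (l / Real.log X) ^ 2 * (J : ℝ) ^ 2 =
        16 * η * X * (J : ℝ) ^ 2 * (l * (4 * l)) / (Real.log X) ^ 2 := by
      field_simp
      ring
    rw [e3]
    apply div_le_div₀ (by positivity) ?_ (by positivity) (pow_le_pow_left₀ hlogX.le hlogN 2)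
    apply mul_le_mul_of_nonneg_left _ (by positivity)
    exact mul_le_mul_of_nonneg_left hlR hl0.le
  refine (nrm_le_of_sq X _ _ hfin).trans (le_of_eq ?_)
  rw [Real.sqrt_mul (by positivity), Real.sqrt_sq (by positivity)]

end Pool.Agent.H43.LR
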