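import Pool.Agent.H43.LR.Piece
import Pool.Agent.H43.LR.First

/-!
# [H43 LR LONG] The mean square theorem for `m <= M`, `X^(1/3) <= M <= X^θ`

PROOF. Let `K1`, `K2` be the constants of `piece κ θ` and `first (1/4)`. Given `y`, `X` large. Let `b0` be the least
natural number with `X <= 8 b0^3` (`Nat.find`; or `b0 = ⌈X^(1/3)/2⌉`). Then `b0 <= X^(1/3)/2 + 1`, so
`b0^3 <= X` and `X^(1/4) <= b0` and, as `M >= X^(1/3)` (`X <= M^3`), `b0 <= 4 (M - b0)` for `X` large. So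
`nrm X (F y X 0 b0) <= sqrt (K2 y^(-1/24) X) (b0/log X)` by `first`, and
`nrm X (F y X b0 (M-b0)) <= sqrt (K1 y^(-1/24) X) ((M-b0)/log X)` by `add2` with `Φ b l = nrm X (F y X b l)`
(`nrm_add`, `F_add`, `nrm_congr`), `b0`, `T = M`, `c = sqrt (K1 y^(-1/24) X)/log X` and `piece` (for `b >= b0`,
`X <= 8 b0^3 <= 8 b^3`; `b + l <= M <= X^θ`). Add: `M = b0 + (M - b0)`, `F_add` with `b = 0`.
`C = (sqrt K1 + sqrt K2)^2` works.
-/

namespace Pool.Agent.H43.LR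

open Finset

theorem long (κ θ : ℝ) (hκ : 0 < κ) (hκ1 : κ < 1) (hθ : 1 / 3 ≤ θ) (h : θ * (2 + κ) < 1)
    (hP : Pri κ) :
    ∃ C : ℝ, 0 < C ∧ ∀ y : ℕ, 1 ≤ y → ∃ X0 : ℕ, 2 ≤ X0 ∧ ∀ X M : ℕ, X0 ≤ X → X ≤ M ^ 3 →
    (M : ℝ) ≤ (X : ℝ) ^ θ →
    nrm X (F y X 0 M) ≤ Real.sqrt (C * (y : ℝ) ^ (-(1 : ℝ) / 24) * X) * (M / Real.log X) := by
  obtain ⟨K1, hK1, hp⟩ := piece κ θ hκ hκ1 hθ h hP
  obtain ⟨K2, hK2, hf⟩ := first (1 / 4) (by norm_num)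
  refine ⟨(Real.sqrt K1 + Real.sqrt K2) ^ 2, by positivity, fun y hy => ?_⟩
  obtain ⟨X1, hp⟩ := hp y hy
  obtain ⟨X2, hX2, hf⟩ := hf y hy
  refine ⟨max (max X1 X2) 4096, le_trans (by norm_num) (le_max_right _ _), ?_⟩
  intro X M hX hXM hM
  have hXX1 : X1 ≤ X := ((le_max_left _ _).trans (le_max_left _ _)).trans hX
  have hXX2 : X2 ≤ X := ((le_max_right _ _).trans (le_max_left _ _)).trans hX
  have hX4 : 4096 ≤ X := (le_max_right _ _).trans hX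
  have hX4R : (4096 : ℝ) ≤ X := by exact_mod_cast hX4
  have hlog : 0 < Real.log X := Real.log_pos (by linarith)
  obtain ⟨b0, hb0, hb1⟩ : ∃ b0 : ℕ, X ≤ 8 * b0 ^ 3 ∧ 8 * (b0 - 1) ^ 3 < X := by
    have hex : ∃ b : ℕ, X ≤ 8 * b ^ 3 := ⟨X, by nlinarith [Nat.le_self_pow (n := 3) (by norm_num) X]⟩
    classical
    refine ⟨Nat.find hex, Nat.find_spec hex, ?_⟩
    have h0 : Nat.find hex ≠ 0 := by
      intro h0
      have := Nat.find_spec hex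
      rw [h0] at this
      omega
    have := Nat.find_min hex (m := Nat.find hex - 1) (by omega)
    omega
  have hb2 : 2 ≤ b0 := by
    by_contra hlt
    have h1 : b0 ≤ 1 := by omega
    have h2 : b0 ^ 3 ≤ 1 := by
      calc b0 ^ 3 ≤ 1 ^ 3 := Nat.pow_le_pow_left h1 3
        _ = 1 := by norm_num
    omega
  obtain ⟨a, rfl⟩ : ∃ a, b0 = a + 1 := ⟨b0 - 1, by omega⟩
  have ha1 : 1 ≤ a := by omega
  rw [Nat.add_sub_cancel] at hb1
  have h2a : 2 * a < M := by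
    have h1 : (2 * a) ^ 3 < M ^ 3 := by
      calc (2 * a) ^ 3 = 8 * a ^ 3 := by ring
        _ < X := hb1
        _ ≤ M ^ 3 := hXM
    exact lt_of_pow_lt_pow_left₀ 3 (Nat.zero_le _) h1
  have hM2 : 16 ≤ M := by
    by_contra hlt
    have h1 : M ^ 3 < 16 ^ 3 := Nat.pow_lt_pow_left (by omega) (by norm_num)
    norm_num at h1
    omega
  have hbX : (a + 1) ^ 3 ≤ X := by
    have h1 : (a + 1) ^ 3 ≤ (2 * a) ^ 3 := Nat.pow_le_pow_left (by omega) 3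
    have h2 : (2 * a) ^ 3 = 8 * a ^ 3 := by ring
    omega
  have hbM : a + 1 ≤ M := by omega
  have h14 : (X : ℝ) ^ (1 / 4 : ℝ) ≤ ((a + 1 : ℕ) : ℝ) := by
    have h1 : (X : ℝ) ≤ 8 * ((a + 1 : ℕ) : ℝ) ^ 3 := by exact_mod_cast hb0
    have hXpos : (0 : ℝ) < X := by linarith
    have h2 : (X : ℝ) ^ (1 / 4 : ℝ) * 2 ≤ (X : ℝ) ^ (1 / 3 : ℝ) := by
      have h3 : (X : ℝ) ^ (1 / 3 : ℝ) = (X : ℝ) ^ (1 / 4 : ℝ) * (X : ℝ) ^ (1 / 12 : ℝ) := by
        rw [← Real.rpow_add hXpos]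
        norm_num
      rw [h3]
      refine mul_le_mul_of_nonneg_left ?_ (Real.rpow_nonneg hXpos.le _)
      have h4 : ((4096 : ℝ)) ^ (1 / 12 : ℝ) = 2 := by
        rw [show (4096 : ℝ) = 2 ^ (12 : ℕ) by norm_num, ← Real.rpow_natCast, ← Real.rpow_mul (by norm_num)]
        norm_num
      rw [← h4]
      exact Real.rpow_le_rpow (by norm_num) hX4R (by norm_num)
    have h3 : (X : ℝ) ^ (1 / 3 : ℝ) ≤ 2 * ((a + 1 : ℕ) : ℝ) := by
      have h4 : (X : ℝ) ≤ (2 * ((a + 1 : ℕ) : ℝ)) ^ 3 := by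
        rw [mul_pow]
        norm_num at h1 ⊢
        exact h1
      calc (X : ℝ) ^ (1 / 3 : ℝ) ≤ ((2 * ((a + 1 : ℕ) : ℝ)) ^ 3) ^ (1 / 3 : ℝ) :=
            Real.rpow_le_rpow hXpos.le h4 (by norm_num)
        _ = 2 * ((a + 1 : ℕ) : ℝ) := by
            have h5 : (1 / 3 : ℝ) = ((3 : ℕ) : ℝ)⁻¹ := by norm_num
            rw [h5, Real.pow_rpow_inv_natCast (by positivity) (by norm_num)]
    linarith
  have h1 := hf X (a + 1) hXX2 h14 hbX
  have htri : ∀ b l l', nrm X (F y X b (l + l')) ≤ nrm X (F y X b l) + nrm X (F y X (b + l) l') := by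
    intro b l l'
    rw [nrm_congr X _ _ (fun k _ => F_add y X b l l' k)]
    exact nrm_add X _ _
  have h2 := add2 (fun b l => nrm X (F y X b l)) htri (a + 1) M
    (Real.sqrt (K1 * (y : ℝ) ^ (-(1 : ℝ) / 24) * X) / Real.log X) (by omega) (by
      intro b l hb hbl h4 h5
      have hbb : X ≤ 8 * b ^ 3 := hb0.trans (Nat.mul_le_mul_left 8 (Nat.pow_le_pow_left hb 3))
      have hble : ((b + l : ℕ) : ℝ) ≤ (X : ℝ) ^ θ := le_trans (by exact_mod_cast hbl) hM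
      have h6 := hp X b l hXX1 hbb hble h4 h5
      calc nrm X (F y X b l) ≤ _ := h6
        _ = _ := by ring) (M - (a + 1)) (a + 1) le_rfl (by omega) (by omega)
  have h3 := htri 0 (a + 1) (M - (a + 1))
  rw [Nat.add_sub_cancel' hbM, Nat.zero_add] at h3
  have hYX : 0 ≤ (y : ℝ) ^ (-(1 : ℝ) / 24) * X := by positivity
  have e1 : Real.sqrt (K1 * (y : ℝ) ^ (-(1 : ℝ) / 24) * X) =
      Real.sqrt K1 * Real.sqrt ((y : ℝ) ^ (-(1 : ℝ) / 24) * X) := by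
    rw [mul_assoc, Real.sqrt_mul hK1.le]
  have e2 : Real.sqrt (K2 * (y : ℝ) ^ (-(1 : ℝ) / 24) * X) =
      Real.sqrt K2 * Real.sqrt ((y : ℝ) ^ (-(1 : ℝ) / 24) * X) := by
    rw [mul_assoc, Real.sqrt_mul hK2.le]
  have e3 : Real.sqrt ((Real.sqrt K1 + Real.sqrt K2) ^ 2 * (y : ℝ) ^ (-(1 : ℝ) / 24) * X) =
      (Real.sqrt K1 + Real.sqrt K2) * Real.sqrt ((y : ℝ) ^ (-(1 : ℝ) / 24) * X) := by
    rw [mul_assoc, Real.sqrt_mul (sq_nonneg _), Real.sqrt_sq (by positivity)]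
  rw [e3]
  rw [e2] at h1
  rw [e1] at h2
  set A := Real.sqrt ((y : ℝ) ^ (-(1 : ℝ) / 24) * X) with hA
  have hA0 : 0 ≤ A := Real.sqrt_nonneg _
  have hbM' : ((a + 1 : ℕ) : ℝ) / Real.log X ≤ M / Real.log X :=
    div_le_div_of_nonneg_right (by exact_mod_cast hbM) hlog.le
  have hbM'' : ((M - (a + 1) : ℕ) : ℝ) / Real.log X ≤ M / Real.log X :=
    div_le_div_of_nonneg_right (by exact_mod_cast Nat.sub_le _ _) hlog.le
  calc nrm X (F y X 0 M) ≤ nrm X (F y X 0 (a + 1)) + nrm X (F y X (a + 1) (M - (a + 1))) := h3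
    _ ≤ Real.sqrt K2 * A * (((a + 1 : ℕ) : ℝ) / Real.log X) +
        Real.sqrt K1 * A / Real.log X * ((M - (a + 1) : ℕ) : ℝ) := add_le_add h1 h2
    _ = Real.sqrt K2 * A * (((a + 1 : ℕ) : ℝ) / Real.log X) +
        Real.sqrt K1 * A * (((M - (a + 1) : ℕ) : ℝ) / Real.log X) := by ring
    _ ≤ Real.sqrt K2 * A * (M / Real.log X) + Real.sqrt K1 * A * (M / Real.log X) :=
        add_le_add (mul_le_mul_of_nonneg_left hbM' (by positivity))
          (mul_le_mul_of_nonneg_left hbM'' (by positivity))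
    _ = (Real.sqrt K1 + Real.sqrt K2) * A * (M / Real.log X) := by ring

end Pool.Agent.H43.LR
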