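import Pool.Agent.H43.LR.Dpart
import Pool.Agent.H43.LR.Gpart
import Pool.Agent.H43.LR.Cpart

/-!
# [H43 LR PIECE] The mean square theorem for `(b, b+l]`, `b/4 <= l <= b`

PROOF. With `N = 8 b^3`, `J = ⌊N^κ⌋ >= 1`, `W = lcm(1..y)`:
`F y X b l k = Dd b l J W k + (∑_m (pc - cc))/J + ((∑_m cc)/J - S_y(k) ∑_m wt)` (`pb_eq`). `dpart`, `gpart`
(`θ < 1/2` because `2 θ < θ (2 + κ) < 1`), `cpart` with `nrm_add` twice and `nrm_le_of_bound` give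
`nrm <= (sqrt K + 8 + 1) sqrt (y^(-1/24) X) (l/log X)`, `= sqrt ((sqrt K + 9)^2 y^(-1/24) X) (l/log X)`
(`y^(-1/48) = sqrt (y^(-1/24))`).
-/

namespace Pool.Agent.H43.LR

open Finset

theorem piece_num (K x v X : ℝ) (hK : 0 ≤ K) (hx : 0 ≤ x) (y : ℝ) (hy : 0 ≤ y)
    (hxy : x = y ^ 2) :
    Real.sqrt (K * x * X) * v + (Real.sqrt (64 * x * X) * v + Real.sqrt X * (y * v)) =
      Real.sqrt ((Real.sqrt K + 9) ^ 2 * x * X) * v := by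
  have h1 : Real.sqrt (K * x * X) = Real.sqrt K * (y * Real.sqrt X) := by
    rw [mul_assoc, Real.sqrt_mul hK, Real.sqrt_mul hx, hxy, Real.sqrt_sq hy]
  have h2 : Real.sqrt (64 * x * X) = 8 * (y * Real.sqrt X) := by
    rw [mul_assoc, Real.sqrt_mul (by norm_num), Real.sqrt_mul hx, hxy, Real.sqrt_sq hy]
    have : Real.sqrt 64 = 8 := by
      rw [show (64 : ℝ) = 8 ^ 2 by norm_num, Real.sqrt_sq (by norm_num)]
    rw [this]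
  have h3 : Real.sqrt ((Real.sqrt K + 9) ^ 2 * x * X) = (Real.sqrt K + 9) * (y * Real.sqrt X) := by
    rw [mul_assoc, Real.sqrt_mul (by positivity), Real.sqrt_mul hx, hxy, Real.sqrt_sq hy,
      Real.sqrt_sq (by positivity)]
  rw [h1, h2, h3]
  ring

theorem piece (κ θ : ℝ) (hκ : 0 < κ) (hκ1 : κ < 1) (hθ : 1 / 3 ≤ θ) (h : θ * (2 + κ) < 1)
    (hP : Pri κ) :
    ∃ K : ℝ, 0 < K ∧ ∀ y : ℕ, 1 ≤ y → ∃ X0 : ℕ, ∀ X b l : ℕ, X0 ≤ X → X ≤ 8 * b ^ 3 →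
    ((b + l : ℕ) : ℝ) ≤ (X : ℝ) ^ θ → b ≤ 4 * l → l ≤ b →
    nrm X (F y X b l) ≤ Real.sqrt (K * (y : ℝ) ^ (-(1 : ℝ) / 24) * X) * (l / Real.log X) := by
  obtain ⟨K, hK, hd⟩ := dpart κ θ hκ hκ1 hθ h
  refine ⟨(Real.sqrt K + 9) ^ 2, by positivity, fun y hy => ?_⟩
  have hθ2 : θ < 1 / 2 := by nlinarith
  obtain ⟨X1, h1⟩ := hd y hy
  obtain ⟨X2, h2⟩ := gpart κ θ hκ hθ2 hP y hy
  obtain ⟨X3, h3⟩ := cpart y hy
  refine ⟨X1 + X2 + X3 + 1, fun X b l hX hXb hbl hb4 hlb => ?_⟩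
  have e1 := h1 X b l (by omega) hXb hbl hb4 hlb
  have e2 := h2 X b l (by omega) hXb hbl hb4 hlb
  set J : ℕ := ⌊((8 * b ^ 3 : ℕ) : ℝ) ^ κ⌋₊ with hJ
  have hJ1 : 1 ≤ J := by
    rw [hJ, Nat.one_le_floor_iff]
    refine Real.one_le_rpow ?_ hκ.le
    have : 1 ≤ 8 * b ^ 3 := by omega
    exact_mod_cast this
  have hJR : (J : ℝ) ≠ 0 := by
    have : J ≠ 0 := by omega
    exact_mod_cast this
  set W : ℕ := (Icc 1 y).lcm id with hW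
  have e3 : nrm X (fun k => (∑ m ∈ Icc 1 l, cc W J ((8 * b ^ 3 : ℕ) : ℝ) ((b + m) ^ 3 + k)) / J -
      HL.S y k * ∑ m ∈ Icc 1 l, wt X (b + m)) ≤
      Real.sqrt X * ((y : ℝ) ^ (-(1 : ℝ) / 48) * (l / Real.log X)) := by
    refine nrm_le_of_bound X _ _ ?_ fun k _ => h3 X b l J k (by omega) hXb hb4 hlb hJ1
    have : 0 ≤ Real.log X := Real.log_natCast_nonneg X
    positivity
  have e4 : nrm X (F y X b l) = nrm X (fun k => Dd b l J W k +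
      ((∑ m ∈ Icc 1 l, ((pc J W ((b + m) ^ 3 + k) : ℝ) -
          cc W J ((8 * b ^ 3 : ℕ) : ℝ) ((b + m) ^ 3 + k))) / (J : ℝ) +
        ((∑ m ∈ Icc 1 l, cc W J ((8 * b ^ 3 : ℕ) : ℝ) ((b + m) ^ 3 + k)) / J -
      HL.S y k * ∑ m ∈ Icc 1 l, wt X (b + m)))) := by
    refine nrm_congr X _ _ fun k _ => ?_
    unfold F Dd
    rw [pb_eq, sum_sub_distrib]
    ring
  rw [e4]
  refine (nrm_add X _ _).trans ?_
  refine (add_le_add e1 ((nrm_add X _ _).trans (add_le_add e2 e3))).trans (le_of_eq ?_)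
  refine piece_num K ((y : ℝ) ^ (-(1 : ℝ) / 24)) (l / Real.log X) X hK.le (by positivity)
    ((y : ℝ) ^ (-(1 : ℝ) / 48)) (by positivity) ?_
  rw [← Real.rpow_natCast ((y : ℝ) ^ (-(1 : ℝ) / 48)) 2, ← Real.rpow_mul (Nat.cast_nonneg y)]
  norm_num

end Pool.Agent.H43.LR
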