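import Pool.Agent.H43.LR.Long
import Pool.Agent.H43.SI.Pri

/-!
# [H43 LR REL] The relative form and the final theorem
-/

namespace Pool.Agent.H43.LR

open Finset

/-- from the mean square to the exceptional set -/
theorem rel_gen (y X : ℕ) (hy : 1 ≤ y) (K : ℝ) (hK : 0 ≤ K) (A : ℕ → ℝ) (R : ℝ)
    (hR : 0 < R)
    (hms : nrm X (fun k => A k - HL.S y k * R) ≤ Real.sqrt (K * (y : ℝ) ^ (-(1 : ℝ) / 24) * X) * R)
    (hB : ∑ k ∈ Icc 1 X, (HL.S y k)⁻¹ ≤ 2 * Real.exp 46 * X) (δ : ℝ) (hδ : 0 < δ) :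
    ((((Icc 1 X).filter (fun k => δ * (HL.S y k * R) < |A k - HL.S y k * R|)).card : ℕ) : ℝ) ≤
      (4 * Real.exp 46 + K / 4) * (δ ^ 2 * (y : ℝ) ^ ((1 : ℝ) / 24)) ^ (-(1 : ℝ) / 3) * X := by
  have hypos : (0 : ℝ) < y := by exact_mod_cast hy
  set D : ℝ := δ ^ 2 * (y : ℝ) ^ ((1 : ℝ) / 24) with hD
  have hD0 : 0 < D := by positivity
  set c : ℝ := D ^ (-(1 : ℝ) / 3) with hc
  have hc0 : 0 < c := Real.rpow_pos_of_pos hD0 _
  have hc3 : c ^ 3 * D = 1 := by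
    rw [hc, ← Real.rpow_natCast, ← Real.rpow_mul hD0.le]
    norm_num
    rw [Real.rpow_neg_one, inv_mul_cancel₀ hD0.ne']
  have hyn : 0 ≤ (y : ℝ) ^ (-(1 : ℝ) / 24) := Real.rpow_nonneg hypos.le _
  have hT : 0 ≤ K * (y : ℝ) ^ (-(1 : ℝ) / 24) * X := by positivity
  have hA : ∑ k ∈ Icc 1 X, (A k - HL.S y k * R) ^ 2 ≤ K * (y : ℝ) ^ (-(1 : ℝ) / 24) * X * R ^ 2 := by
    have h1 := pow_le_pow_left₀ (nrm_nonneg X _) hms 2
    rw [nrm_sq, mul_pow, Real.sq_sqrt hT] at h1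
    exact h1
  set U := (Icc 1 X).filter (fun k => HL.S y k < 2 * c) with hUdef
  set B := (Icc 1 X).filter (fun k => (2 * c * δ * R) ^ 2 ≤ (A k - HL.S y k * R) ^ 2) with hBdef
  have hsub : (Icc 1 X).filter (fun k => δ * (HL.S y k * R) < |A k - HL.S y k * R|) ⊆ U ∪ B := by
    intro k hk
    rw [mem_filter] at hk
    rw [mem_union]
    by_cases h : HL.S y k < 2 * c
    · left
      exact mem_filter.2 ⟨hk.1, h⟩
    · right
      push Not at h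
      refine mem_filter.2 ⟨hk.1, ?_⟩
      have h1 : 2 * c * δ * R ≤ |A k - HL.S y k * R| := by
        refine le_trans ?_ hk.2.le
        have h2 := mul_le_mul_of_nonneg_left h (mul_pos hδ hR).le
        calc 2 * c * δ * R = δ * R * (2 * c) := by ring
          _ ≤ δ * R * HL.S y k := h2
          _ = δ * (HL.S y k * R) := by ring
      rw [← sq_abs (A k - HL.S y k * R)]
      exact pow_le_pow_left₀ (by positivity) h1 2
  have hUcard : (U.card : ℝ) ≤ 4 * Real.exp 46 * c * X := by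
    have h1 : (U.card : ℝ) * (1 / (2 * c)) ≤ ∑ k ∈ Icc 1 X, (HL.S y k)⁻¹ := by
      calc (U.card : ℝ) * (1 / (2 * c)) = ∑ _k ∈ U, 1 / (2 * c) := by simp
        _ ≤ ∑ k ∈ U, (HL.S y k)⁻¹ := by
            apply Finset.sum_le_sum
            intro k hk
            have := (mem_filter.1 hk).2
            rw [← one_div]
            exact one_div_le_one_div_of_le (HL.S_pos y k) this.le
        _ ≤ ∑ k ∈ Icc 1 X, (HL.S y k)⁻¹ := by
            apply Finset.sum_le_sum_of_subset_of_nonneg (filter_subset _ _)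
            intro k _ _
            exact (inv_pos.2 (HL.S_pos y k)).le
    have h2 := h1.trans hB
    rw [mul_one_div, div_le_iff₀ (by positivity)] at h2
    calc (U.card : ℝ) ≤ 2 * Real.exp 46 * X * (2 * c) := h2
      _ = 4 * Real.exp 46 * c * X := by ring
  have hBcard : (B.card : ℝ) ≤ K / 4 * c * X := by
    have h1 : (B.card : ℝ) * (2 * c * δ * R) ^ 2 ≤
        ∑ k ∈ Icc 1 X, (A k - HL.S y k * R) ^ 2 := by
      calc (B.card : ℝ) * (2 * c * δ * R) ^ 2 = ∑ _k ∈ B, (2 * c * δ * R) ^ 2 := by simp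
        _ ≤ ∑ k ∈ B, (A k - HL.S y k * R) ^ 2 :=
            Finset.sum_le_sum (fun k hk => (mem_filter.1 hk).2)
        _ ≤ ∑ k ∈ Icc 1 X, (A k - HL.S y k * R) ^ 2 :=
            Finset.sum_le_sum_of_subset_of_nonneg (filter_subset _ _) (fun _ _ _ => sq_nonneg _)
    have h4 := h1.trans hA
    have hy24 : (y : ℝ) ^ (-(1 : ℝ) / 24) * (y : ℝ) ^ ((1 : ℝ) / 24) = 1 := by
      rw [← Real.rpow_add hypos, show -(1 : ℝ) / 24 + 1 / 24 = 0 by ring, Real.rpow_zero]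
    have h5 : 0 < (2 * c * δ * R) ^ 2 := by positivity
    have h6 : K * (y : ℝ) ^ (-(1 : ℝ) / 24) * X * R ^ 2 = (K / 4 * c * X) * (2 * c * δ * R) ^ 2 := by
      have e1 : (K / 4 * c * X) * (2 * c * δ * R) ^ 2 = K * X * R ^ 2 * (c ^ 3 * δ ^ 2) := by ring
      have e2 : c ^ 3 * δ ^ 2 = (y : ℝ) ^ (-(1 : ℝ) / 24) := by
        calc c ^ 3 * δ ^ 2 = c ^ 3 * δ ^ 2 * ((y : ℝ) ^ (-(1 : ℝ) / 24) * (y : ℝ) ^ ((1 : ℝ) / 24)) := by
              rw [hy24, mul_one]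
          _ = (c ^ 3 * (δ ^ 2 * (y : ℝ) ^ ((1 : ℝ) / 24))) * (y : ℝ) ^ (-(1 : ℝ) / 24) := by ring
          _ = (y : ℝ) ^ (-(1 : ℝ) / 24) := by rw [← hD, hc3, one_mul]
      rw [e1, e2]
      ring
    rw [h6] at h4
    exact le_of_mul_le_mul_right h4 h5
  calc ((((Icc 1 X).filter (fun k => δ * (HL.S y k * R) < |A k - HL.S y k * R|)).card : ℕ) : ℝ)
      ≤ ((U ∪ B).card : ℝ) := by exact_mod_cast Finset.card_le_card hsub
    _ ≤ (U.card : ℝ) + B.card := by exact_mod_cast Finset.card_union_le U B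
    _ ≤ (4 * Real.exp 46 + K / 4) * c * X := by linarith

/-- the expected number of `m` -/
noncomputable def V (X M : ℕ) : ℝ := ∑ m ∈ Icc 1 M, 1 / Real.log ((X : ℝ) + (m : ℝ) ^ 3)

theorem V_lower (X M : ℕ) (hX : 32 ≤ X) (hM : (M : ℝ) ≤ (X : ℝ) ^ ((3 : ℝ) / 7)) :
    (M : ℝ) / Real.log X ≤ 2 * V X M := by
  have hXr : (32 : ℝ) ≤ X := by exact_mod_cast hX
  have hX0 : (0 : ℝ) < X := by linarith
  have hlog : 0 < Real.log X := Real.log_pos (by linarith)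
  have hM3 : (M : ℝ) ^ 3 ≤ (X : ℝ) ^ ((9 : ℝ) / 7) := by
    calc (M : ℝ) ^ 3 ≤ ((X : ℝ) ^ ((3 : ℝ) / 7)) ^ 3 := pow_le_pow_left₀ (Nat.cast_nonneg _) hM 3
      _ = (X : ℝ) ^ ((9 : ℝ) / 7) := by
          rw [← Real.rpow_natCast, ← Real.rpow_mul hX0.le]
          norm_num
  have h2X : (X : ℝ) + (M : ℝ) ^ 3 ≤ (X : ℝ) ^ 2 := by
    have h1 : (X : ℝ) ≤ (X : ℝ) ^ ((9 : ℝ) / 7) := by
      conv_lhs => rw [← Real.rpow_one (X : ℝ)]
      exact Real.rpow_le_rpow_of_exponent_le (by linarith) (by norm_num)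
    have h2 : (2 : ℝ) ≤ (X : ℝ) ^ ((5 : ℝ) / 7) := by
      calc (2 : ℝ) = ((2 : ℝ) ^ (5 : ℝ)) ^ ((1 : ℝ) / 5) := by
            rw [← Real.rpow_mul (by norm_num)]; norm_num
        _ = (32 : ℝ) ^ ((1 : ℝ) / 5) := by norm_num
        _ ≤ (X : ℝ) ^ ((1 : ℝ) / 5) := Real.rpow_le_rpow (by norm_num) hXr (by norm_num)
        _ ≤ (X : ℝ) ^ ((5 : ℝ) / 7) :=
            Real.rpow_le_rpow_of_exponent_le (by linarith) (by norm_num)
    calc (X : ℝ) + (M : ℝ) ^ 3 ≤ (X : ℝ) ^ ((9 : ℝ) / 7) * 2 := by linarith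
      _ ≤ (X : ℝ) ^ ((9 : ℝ) / 7) * (X : ℝ) ^ ((5 : ℝ) / 7) :=
          mul_le_mul_of_nonneg_left h2 (Real.rpow_nonneg hX0.le _)
      _ = (X : ℝ) ^ 2 := by
          rw [← Real.rpow_add hX0]
          norm_num
  have hterm : ∀ m ∈ Icc 1 M, 1 / (2 * Real.log X) ≤ 1 / Real.log ((X : ℝ) + (m : ℝ) ^ 3) := by
    intro m hm
    have hmM : (m : ℝ) ≤ M := by exact_mod_cast (mem_Icc.1 hm).2
    have h3 : (m : ℝ) ^ 3 ≤ (M : ℝ) ^ 3 := pow_le_pow_left₀ (Nat.cast_nonneg _) hmM 3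
    have h0 : (0 : ℝ) ≤ (m : ℝ) ^ 3 := by positivity
    have h4 : 0 < Real.log ((X : ℝ) + (m : ℝ) ^ 3) := Real.log_pos (by linarith)
    apply one_div_le_one_div_of_le h4
    calc Real.log ((X : ℝ) + (m : ℝ) ^ 3) ≤ Real.log ((X : ℝ) ^ 2) :=
          Real.log_le_log (by linarith) (by linarith)
      _ = 2 * Real.log X := by rw [Real.log_pow]; norm_num
  have hsum := Finset.sum_le_sum hterm
  rw [sum_const, Nat.card_Icc, nsmul_eq_mul] at hsum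
  unfold V
  have e : ((M + 1 - 1 : ℕ) : ℝ) * (1 / (2 * Real.log X)) = (M : ℝ) / Real.log X / 2 := by
    rw [Nat.add_sub_cancel]
    field_simp
  rw [e] at hsum
  linarith

theorem final_rel (θ1 θ2 : ℝ) (hθ1 : 1 / 9 < θ1) (hθ2 : θ2 < 3 / 7) :
    ∃ C : ℝ, ∀ y : ℕ, 1 ≤ y → ∃ X0 : ℕ, 2 ≤ X0 ∧
    ∀ X M : ℕ, X0 ≤ X → (X : ℝ) ^ θ1 ≤ M → (M : ℝ) ≤ (X : ℝ) ^ θ2 → ∀ δ : ℝ, 0 < δ →
    ((((Icc 1 X).filter (fun k =>
      δ * (HL.S y k * V X M) <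
      |(((Icc 1 M).filter (fun m => (m ^ 3 + k).Prime)).card : ℝ) - HL.S y k * V X M|)).card : ℕ) : ℝ)
      ≤ C * (δ ^ 2 * (y : ℝ) ^ ((1 : ℝ) / 24)) ^ (-(1 : ℝ) / 3) * X := by
  set θ : ℝ := max θ2 (1 / 3) with hθdef
  have hθ3 : 1 / 3 ≤ θ := le_max_right _ _
  have hθ4 : θ2 ≤ θ := le_max_left _ _
  have hθ5 : θ < 3 / 7 := max_lt hθ2 (by norm_num)
  have hθ0 : 0 < θ := by linarith
  -- choice of the exponent
  obtain ⟨κ, hκ1, hκ2⟩ : ∃ κ : ℝ, 1 / 3 < κ ∧ κ < min (1 / θ - 2) 1 := by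
    apply _root_.exists_between
    apply lt_min
    · rw [lt_sub_iff_add_lt, lt_div_iff₀ hθ0]
      linarith
    · norm_num
  have hκ3 : κ < 1 := lt_of_lt_of_le hκ2 (min_le_right _ _)
  have hκ4 : θ * (2 + κ) < 1 := by
    have h1 : κ < 1 / θ - 2 := lt_of_lt_of_le hκ2 (min_le_left _ _)
    have h2 : 2 + κ < 1 / θ := by linarith
    calc θ * (2 + κ) < θ * (1 / θ) := mul_lt_mul_of_pos_left h2 hθ0
      _ = 1 := mul_one_div_cancel hθ0.ne'
  have hP : Pri κ := fun W hW η hη => SI.pri W hW κ η hκ1 hκ3 hη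
  obtain ⟨C1, hC1, h1⟩ := first θ1 hθ1
  obtain ⟨C2, hC2, h2⟩ := long κ θ (by linarith) hκ3 hθ3 hκ4 hP
  set K : ℝ := 4 * max C1 C2 with hKdef
  have hK0 : 0 < K := by
    have := lt_of_lt_of_le hC1 (le_max_left C1 C2)
    rw [hKdef]; linarith
  refine ⟨4 * Real.exp 46 + K / 4, ?_⟩
  intro y hy
  obtain ⟨X1, hX1, g1⟩ := h1 y hy
  obtain ⟨X2, hX2, g2⟩ := h2 y hy
  obtain ⟨X3, g3⟩ := HL.mean_inv y
  refine ⟨max (max X1 X2) (max X3 32), le_trans hX1 (le_trans (le_max_left _ _) (le_max_left _ _)), ?_⟩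
  intro X M hX hM1 hM2 δ hδ
  have hXX1 : X1 ≤ X := le_trans (le_trans (le_max_left _ _) (le_max_left _ _)) hX
  have hXX2 : X2 ≤ X := le_trans (le_trans (le_max_right _ _) (le_max_left _ _)) hX
  have hXX3 : X3 ≤ X := le_trans (le_trans (le_max_left _ _) (le_max_right _ _)) hX
  have hXX4 : 32 ≤ X := le_trans (le_trans (le_max_right _ _) (le_max_right _ _)) hX
  have hXr : (32 : ℝ) ≤ X := by exact_mod_cast hXX4
  have hypos : (0 : ℝ) < y := by exact_mod_cast hy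
  have hM0 : (0 : ℝ) < M := lt_of_lt_of_le (Real.rpow_pos_of_pos (by linarith) _) hM1
  have hlog : 0 < Real.log X := Real.log_pos (by linarith)
  have hMθ : (M : ℝ) ≤ (X : ℝ) ^ θ :=
    hM2.trans (Real.rpow_le_rpow_of_exponent_le (by linarith) hθ4)
  have hM37 : (M : ℝ) ≤ (X : ℝ) ^ ((3 : ℝ) / 7) :=
    hMθ.trans (Real.rpow_le_rpow_of_exponent_le (by linarith) hθ5.le)
  have hV := V_lower X M hXX4 hM37
  have hV0 : 0 < V X M := by
    have : 0 < (M : ℝ) / Real.log X := div_pos hM0 hlog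
    linarith
  have hyn : 0 ≤ (y : ℝ) ^ (-(1 : ℝ) / 24) := Real.rpow_nonneg hypos.le _
  -- the mean square
  have hF : ∀ C : ℝ, 0 < C → C ≤ max C1 C2 →
      nrm X (F y X 0 M) ≤ Real.sqrt (C * (y : ℝ) ^ (-(1 : ℝ) / 24) * X) * (M / Real.log X) →
      nrm X (F y X 0 M) ≤ Real.sqrt (K * (y : ℝ) ^ (-(1 : ℝ) / 24) * X) * V X M := by
    intro C hC hCm h
    refine h.trans ?_
    have e1 : Real.sqrt (K * (y : ℝ) ^ (-(1 : ℝ) / 24) * X) =
        2 * Real.sqrt (max C1 C2 * (y : ℝ) ^ (-(1 : ℝ) / 24) * X) := by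
      rw [hKdef, show 4 * max C1 C2 * (y : ℝ) ^ (-(1 : ℝ) / 24) * X =
        2 ^ 2 * (max C1 C2 * (y : ℝ) ^ (-(1 : ℝ) / 24) * X) by ring,
        Real.sqrt_mul (by norm_num), Real.sqrt_sq (by norm_num)]
    rw [e1]
    calc Real.sqrt (C * (y : ℝ) ^ (-(1 : ℝ) / 24) * X) * (M / Real.log X)
        ≤ Real.sqrt (max C1 C2 * (y : ℝ) ^ (-(1 : ℝ) / 24) * X) * (2 * V X M) := by
          apply mul_le_mul _ hV (by positivity) (Real.sqrt_nonneg _)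
          apply Real.sqrt_le_sqrt
          exact mul_le_mul_of_nonneg_right (mul_le_mul_of_nonneg_right hCm hyn) (Nat.cast_nonneg _)
      _ = 2 * Real.sqrt (max C1 C2 * (y : ℝ) ^ (-(1 : ℝ) / 24) * X) * V X M := by ring
  have hms : nrm X (F y X 0 M) ≤ Real.sqrt (K * (y : ℝ) ^ (-(1 : ℝ) / 24) * X) * V X M := by
    rcases le_total (M ^ 3) X with h | h
    · exact hF C1 hC1 (le_max_left _ _) (g1 X M hXX1 hM1 h)
    · exact hF C2 hC2 (le_max_right _ _) (g2 X M hXX2 h hMθ)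
  have hF2 : F y X 0 M = fun k =>
      ((((Icc 1 M).filter (fun m => (m ^ 3 + k).Prime)).card : ℕ) : ℝ) - HL.S y k * V X M := by
    funext k
    unfold F cb V wt
    simp only [Nat.zero_add]
  rw [hF2] at hms
  exact rel_gen y X hy K hK0.le _ (V X M) hV0 hms (g3 X hXX3) δ hδ

end Pool.Agent.H43.LR
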